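import Pool.Agent.Lib.MP_f3446c_co.FProps

/-!
# Adjacency matrix identities
-/

set_option autoImplicit false

namespace Pool.Agent.Lib.MPf3446c

open Finset Classical

variable {V : Type*}

theorem IsTournament.flip {T : V → V → Prop} (hT : IsTournament T) :
    IsTournament (fun a b => T b a) :=
  ⟨fun v => hT.1 v, fun u v huv => hT.2 v u huv.symm⟩

theorem tr_flip (T : V → V → Prop) (k : ℕ) : tr (fun a b => T b a) k = tr T k := by
  unfold tr
  congr 1
  ext X
  simp only [Set.mem_ofPred_eq]
  apply and_congr_right
  intro _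
  constructor
  · intro h a ha b hb c hc hab hbc
    exact h c hc b hb a ha hbc hab
  · intro h a ha b hb c hc hab hbc
    exact h c hc b hb a ha hbc hab

/-- adjacency matrix -/
noncomputable def A (T : V → V → Prop) (u v : V) : ℤ := if T u v then 1 else 0

theorem A_self {T : V → V → Prop} (hT : IsTournament T) (u : V) : A T u u = 0 :=
  if_neg (hT.1 u)

theorem A_add {T : V → V → Prop} (hT : IsTournament T) {u v : V} (huv : u ≠ v) :
    A T u v + A T v u = 1 := by
  unfold A
  by_cases h : T u v
  · rw [if_pos h, if_neg ((hT.2 u v huv).mp h)]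
    rfl
  · rw [if_neg h, if_pos ((hT.2 v u huv.symm).mpr h)]
    rfl

theorem A_sq (T : V → V → Prop) (u v : V) : A T u v * A T u v = A T u v := by
  unfold A
  split_ifs <;> rfl

theorem A_nonneg (T : V → V → Prop) (u v : V) : 0 ≤ A T u v := by
  unfold A
  split_ifs <;> norm_num

/-- the transposed entry -/
theorem A_flip {T : V → V → Prop} (hT : IsTournament T) (u x : V) :
    A T x u = 1 - (if x = u then 1 else 0) - A T u x := by
  by_cases h : x = u
  · subst h
    rw [if_pos rfl, A_self hT]
    rfl
  · rw [if_neg h]
    have := A_add hT h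
    linarith

variable [Fintype V]

theorem deg_eq (T : V → V → Prop) (u : V) : deg T u = ∑ x, A T u x := by
  unfold deg A
  rw [card_filter]
  push_cast
  rfl

theorem com_eq (T : V → V → Prop) (u v : V) : com T u v = ∑ x, A T u x * A T v x := by
  unfold com A
  rw [card_filter]
  push_cast
  apply sum_congr rfl
  intro x _
  by_cases h1 : T u x <;> by_cases h2 : T v x <;> simp [h1, h2]

theorem com_flip_eq (T : V → V → Prop) (u v : V) :
    com (fun a b => T b a) u v = ∑ x, A T x u * A T x v := by
  rw [com_eq]
  rfl

theorem com_self (T : V → V → Prop) (u : V) : com T u u = deg T u := by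
  rw [com_eq, deg_eq]
  exact sum_congr rfl fun x _ => A_sq T u x

theorem indeg_eq {T : V → V → Prop} (hT : IsTournament T) (u : V) :
    ∑ x, A T x u = Fintype.card V - 1 - deg T u := by
  rw [sum_congr rfl (fun x _ => A_flip hT u x), sum_sub_distrib, sum_sub_distrib, deg_eq]
  rw [sum_const, card_univ, nsmul_eq_mul, mul_one]
  congr 2
  rw [sum_ite_eq' univ u (fun _ => (1 : ℤ)), if_pos (mem_univ _)]

/-- `a - d = deg u + deg v - (n-1)` -/
theorem com_sub_com_flip {T : V → V → Prop} (hT : IsTournament T) {u v : V} (huv : u ≠ v) :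
    com T u v - com (fun a b => T b a) u v = deg T u + deg T v - (Fintype.card V - 1) := by
  have e1 := com_flip_eq T u v
  have e2 := com_eq T u v
  rw [e1, e2, ← sum_sub_distrib]
  have h : ∀ x : V, A T u x * A T v x - A T x u * A T x v =
      A T u x + A T v x - 1 + (if x = u then 1 - A T v u else 0)
        + (if x = v then 1 - A T u v else 0) := by
    intro x
    by_cases h1 : x = u
    · subst h1
      rw [if_pos rfl, if_neg huv, A_self hT]
      ring
    · by_cases h2 : x = v
      · subst h2
        rw [if_neg h1, if_pos rfl, A_self hT]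
        ring
      · rw [if_neg h1, if_neg h2, A_flip hT u x, A_flip hT v x, if_neg h1, if_neg h2]
        ring
  rw [sum_congr rfl (fun x _ => h x), sum_add_distrib, sum_add_distrib, sum_sub_distrib,
    sum_add_distrib, ← deg_eq, ← deg_eq, sum_ite_eq' univ u (fun _ => 1 - A T v u),
    sum_ite_eq' univ v (fun _ => 1 - A T u v), if_pos (mem_univ _), if_pos (mem_univ _),
    sum_const, card_univ, nsmul_eq_mul, mul_one]
  have := A_add hT huv
  linarith

/-- row sums of the matrix of common out-degrees -/
theorem sum_com {T : V → V → Prop} (hT : IsTournament T) (v : V) :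
    ∑ w, com T v w = ∑ x, A T v x * (Fintype.card V - 1 - deg T x) := by
  rw [sum_congr rfl (fun w _ => com_eq T v w), sum_comm]
  apply sum_congr rfl
  intro x _
  rw [← mul_sum, indeg_eq hT]

/-- sums over arcs of symmetric functions -/
theorem sum_arcs_symm {T : V → V → Prop} (hT : IsTournament T) (f : V → V → ℤ)
    (hf : ∀ u v, f u v = f v u) :
    2 * ∑ v, ∑ w ∈ univ.filter (T v), f v w = ∑ v, ∑ w, f v w - ∑ v, f v v := by
  have h1 : ∀ v, ∑ w ∈ univ.filter (T v), f v w = ∑ w, A T v w * f v w := by
    intro v
    rw [sum_filter]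
    apply sum_congr rfl
    intro w _
    unfold A
    split_ifs <;> ring
  rw [sum_congr rfl (fun v _ => h1 v), two_mul]
  have h2 : ∑ v, ∑ w, A T v w * f v w = ∑ v, ∑ w, A T w v * f v w := by
    rw [sum_comm]
    apply sum_congr rfl
    intro v _
    apply sum_congr rfl
    intro w _
    rw [hf]
  nth_rewrite 2 [h2]
  rw [← sum_add_distrib, ← sum_sub_distrib]
  apply sum_congr rfl
  intro v _
  rw [← sum_add_distrib]
  have h3 : ∀ w, A T v w * f v w + A T w v * f v w = f v w - (if w = v then f v v else 0) := by
    intro w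
    rw [← add_mul]
    by_cases h : w = v
    · subst h
      rw [if_pos rfl, A_self hT]
      ring
    · rw [if_neg h, A_add hT (Ne.symm h)]
      ring
  rw [sum_congr rfl (fun w _ => h3 w), sum_sub_distrib,
    sum_ite_eq' univ v (fun _ => f v v), if_pos (mem_univ _)]

end Pool.Agent.Lib.MPf3446c
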