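import Pool.Agent.Lib.MP_f3446c_co.Paley
import Pool.Agent.Lib.PntAP.Main

/-!
# Asymptotics of `F(n,4)`
-/

set_option autoImplicit false

namespace Pool.Agent.Lib.MPf3446c

open Finset Filter Topology

theorem paley_values (K : Type) [Field K] [Fintype K] (hq : Fintype.card K % 4 = 3)
    (h7 : 7 ≤ Fintype.card K) :
    (F (Fintype.card K) 4 : ℚ) = L (Fintype.card K) ∧
      (F (Fintype.card K - 1) 4 : ℚ) = L (Fintype.card K - 1) := by
  obtain ⟨j, hj⟩ : ∃ j, Fintype.card K = 4 * j + 3 := ⟨Fintype.card K / 4, by omega⟩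
  have hcom : ∀ u v : K, u ≠ v → com (paley K) u v = j := by
    intro u v huv
    have h := paley_com K hq huv
    rw [hj] at h
    push_cast at h
    linarith
  have hT := paley_tournament K hq
  constructor
  · rw [hj]
    exact F_eq_of hT hj (by omega) (eq_of_dr hT hj hcom).1.le
  · have h1 : Fintype.card K - 1 = 4 * j + 2 := by omega
    rw [h1]
    exact delete_dr hT (by omega) hj hcom

theorem prime_values {p : ℕ} (hp : p.Prime) (hq : p % 4 = 3) (h7 : 7 ≤ p) :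
    (F p 4 : ℚ) = L p := by
  haveI : Fact p.Prime := ⟨hp⟩
  have h := (paley_values (ZMod p) (by rw [ZMod.card]; exact hq) (by rw [ZMod.card]; exact h7)).1
  rwa [ZMod.card] at h

/-- primes congruent to `3` modulo `4` in short intervals -/
theorem exists_prime {ε : ℝ} (hε : 0 < ε) : ∀ᶠ n : ℕ in atTop,
    ∃ p : ℕ, p.Prime ∧ p % 4 = 3 ∧ n ≤ p ∧ (p : ℝ) ≤ (1 + ε) * n := by
  have hu : IsUnit (3 : ZMod 4) := by decide
  have h := (Pool.Agent.Lib.PntAP.theta_ap_interval hu hε).comp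
    (tendsto_natCast_atTop_atTop (R := ℝ))
  have hpos : (0 : ℝ) < ε / (Nat.totient 4 : ℝ) := by
    have : (0 : ℝ) < (Nat.totient 4 : ℝ) := by
      exact_mod_cast Nat.totient_pos.mpr (by norm_num)
    positivity
  filter_upwards [h.eventually (lt_mem_nhds hpos), eventually_ge_atTop 1] with n hn hn1
  simp only [Function.comp] at hn
  have hn0 : (0 : ℝ) < n := by exact_mod_cast hn1
  have h1 : Pool.Agent.Lib.PntAP.thetaAP (3 : ZMod 4) (n : ℝ) <
      Pool.Agent.Lib.PntAP.thetaAP (3 : ZMod 4) ((1 + ε) * n) := by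
    have := (div_pos_iff_of_pos_right hn0).mp hn
    linarith
  by_contra hcon
  push Not at hcon
  apply absurd h1
  rw [not_lt]
  unfold Pool.Agent.Lib.PntAP.thetaAP
  apply sum_le_sum_of_subset_of_nonneg
  · intro p hp
    rw [mem_filter, mem_Icc] at hp ⊢
    obtain ⟨⟨hp1, hp2⟩, hp3, hp4⟩ := hp
    refine ⟨⟨hp1, ?_⟩, hp3, hp4⟩
    rw [Nat.floor_natCast]
    by_contra hlt
    push Not at hlt
    have hmod : p % 4 = 3 := by
      have h5 : ((p : ℕ) : ZMod 4) = ((3 : ℕ) : ZMod 4) := by rw [hp4]; rfl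
      have h6 := (ZMod.natCast_eq_natCast_iff' p 3 4).mp h5
      simpa using h6
    have h7 := hcon p hp3 hmod hlt.le
    have h8 : (p : ℝ) ≤ (1 + ε) * n := by
      refine le_trans (Nat.cast_le.mpr hp2) (Nat.floor_le ?_)
      positivity
    linarith
  · intro p hp _
    rw [mem_filter, mem_Icc] at hp
    exact Real.log_nonneg (by exact_mod_cast hp.1.1)

theorem choose_four (n : ℕ) : (24 : ℚ) * (n.choose 4 : ℕ) = n * (n - 1) * (n - 2) * (n - 3) := by
  rcases Nat.lt_or_ge n 3 with h | h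
  · interval_cases n <;> norm_num
  · obtain ⟨k, rfl⟩ := Nat.exists_eq_add_of_le' h
    have h1 := Nat.descFactorial_eq_factorial_mul_choose (k + 3) 4
    have h2 : (k + 3).descFactorial 4 = k * ((k + 1) * ((k + 2) * (k + 3))) := by
      simp [Nat.descFactorial]
    rw [h2, show Nat.factorial 4 = 24 from rfl] at h1
    have h3 : ((k * ((k + 1) * ((k + 2) * (k + 3))) : ℕ) : ℚ) =
        ((24 * (k + 3).choose 4 : ℕ) : ℚ) := by exact_mod_cast h1
    push_cast at h3 ⊢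
    linear_combination -h3

/-- upper bound for `F(n,4)` by a prime `p ≥ n` -/
theorem upper_prime {n p : ℕ} (hn : 4 ≤ n) (hp : p.Prime) (hq : p % 4 = 3) (h7 : 7 ≤ p)
    (hnp : n ≤ p) :
    64 * (F n 4 : ℚ) ≤ (n * (n - 1) * (n - 2) * (n - 3)) * (1 - 5 / (p - 2)) := by
  have h1 := F_mono (k := 4) hn hnp
  have hF := prime_values hp hq h7
  have hL : L p = (p : ℚ) * (p - 1) * (p - 3) * (p - 7) / 64 := by
    unfold L
    rw [if_neg (by omega), if_neg (by omega), if_neg (by omega)]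
  have hcn : (0 : ℚ) < n.choose 4 := by exact_mod_cast Nat.choose_pos hn
  have hcp : (0 : ℚ) < p.choose 4 := by exact_mod_cast Nat.choose_pos (by omega : 4 ≤ p)
  rw [hF, hL, div_le_div_iff₀ hcn hcp] at h1
  have e1 := choose_four n
  have e2 := choose_four p
  have hp7 : (7 : ℚ) ≤ p := by exact_mod_cast h7
  have hp2 : (0 : ℚ) < (p : ℚ) - 2 := by linarith
  have hpp : (0 : ℚ) < (p : ℚ) * (p - 1) * (p - 3) := by
    have a1 : (0 : ℚ) < p := by linarith
    have a2 : (0 : ℚ) < (p : ℚ) - 1 := by linarith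
    have a3 : (0 : ℚ) < (p : ℚ) - 3 := by linarith
    positivity
  have e3 : (p.choose 4 : ℚ) = p * (p - 1) * (p - 2) * (p - 3) / 24 := by linarith
  have e4 : (n.choose 4 : ℚ) = n * (n - 1) * (n - 2) * (n - 3) / 24 := by linarith
  rw [e3, e4] at h1
  have h2 : 64 * (F n 4 : ℚ) * (p - 2) ≤ (n * (n - 1) * (n - 2) * (n - 3)) * (p - 7) := by
    have h3 : (p : ℚ) * (p - 1) * (p - 3) * (64 * (F n 4 : ℚ) * (p - 2)) ≤
        (p : ℚ) * (p - 1) * (p - 3) * ((n * (n - 1) * (n - 2) * (n - 3)) * (p - 7)) := by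
      nlinarith
    exact le_of_mul_le_mul_left h3 hpp
  have h4 : (1 : ℚ) - 5 / (p - 2) = (p - 7) / (p - 2) := by
    field_simp
    ring
  rw [h4, ← mul_div_assoc, le_div_iff₀ hp2]
  exact h2

theorem lower_all {n : ℕ} (hn : 4 ≤ n) : (n : ℚ) ^ 4 - 11 * n ^ 3 ≤ 64 * (F n 4 : ℚ) := by
  have h := L_le_F hn
  have hn4 : (4 : ℚ) ≤ n := by exact_mod_cast hn
  have h2 : (0 : ℚ) ≤ (n : ℚ) * (n - 4) := by
    apply mul_nonneg <;> linarith
  unfold L at h
  split_ifs at h <;> nlinarith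

theorem asymptotic : Tendsto (fun n : ℕ => (64 * (F n 4 : ℝ) - (n : ℝ) ^ 4) / (n : ℝ) ^ 3) atTop
    (𝓝 (-11)) := by
  rw [Metric.tendsto_atTop]
  intro η hη
  set ε : ℝ := η / 20 with hε
  have hε0 : 0 < ε := by positivity
  obtain ⟨N, hN⟩ := eventually_atTop.mp (exists_prime hε0)
  obtain ⟨M, hM⟩ := exists_nat_gt (164 / η)
  refine ⟨max N (max M 7), fun n hn => ?_⟩
  have hnN : N ≤ n := (le_max_left _ _).trans hn
  have hnM : M ≤ n := (le_max_left _ _).trans ((le_max_right _ _).trans hn)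
  have hn7 : 7 ≤ n := (le_max_right _ _).trans ((le_max_right _ _).trans hn)
  obtain ⟨p, hp, hq, hnp, hple⟩ := hN n hnN
  have hn7' : (7 : ℝ) ≤ n := by exact_mod_cast hn7
  have hn0 : (0 : ℝ) < n := by linarith
  have hn3 : (0 : ℝ) < (n : ℝ) ^ 3 := by positivity
  have hlow : (n : ℝ) ^ 4 - 11 * n ^ 3 ≤ 64 * (F n 4 : ℝ) := by
    have := lower_all (show 4 ≤ n by omega)
    have h2 : (((n : ℚ) ^ 4 - 11 * n ^ 3 : ℚ) : ℝ) ≤ ((64 * (F n 4 : ℚ) : ℚ) : ℝ) := by
      exact_mod_cast this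
    push_cast at h2
    exact h2
  have hup : 64 * (F n 4 : ℝ) ≤ ((n : ℝ) * (n - 1) * (n - 2) * (n - 3)) * (1 - 5 / (p - 2)) := by
    have := upper_prime (show 4 ≤ n by omega) hp hq (by omega) hnp
    have h2 : ((64 * (F n 4 : ℚ) : ℚ) : ℝ) ≤
        (((n * (n - 1) * (n - 2) * (n - 3)) * (1 - 5 / (p - 2)) : ℚ) : ℝ) := by
      exact_mod_cast this
    push_cast at h2
    exact h2
  have hp7' : (7 : ℝ) ≤ p := by
    have : 7 ≤ p := hn7.trans hnp
    exact_mod_cast this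
  have hpinv : (5 - 5 * ε) / n ≤ 5 / ((p : ℝ) - 2) := by
    have hp2 : (0 : ℝ) < (p : ℝ) - 2 := by linarith
    rw [div_le_div_iff₀ hn0 hp2]
    have h1 : (p : ℝ) - 2 ≤ (1 + ε) * n := by linarith
    have h2 : (5 - 5 * ε) * ((p : ℝ) - 2) ≤ 5 * n := by
      rcases le_or_gt 0 (5 - 5 * ε) with h | h
      · have h3 := mul_le_mul_of_nonneg_left h1 h
        nlinarith [mul_nonneg (mul_nonneg hε0.le hε0.le) hn0.le]
      · have h3 := mul_neg_of_neg_of_pos h hp2
        linarith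
    exact h2
  have hP : (0 : ℝ) ≤ (n : ℝ) * (n - 1) * (n - 2) * (n - 3) := by
    have a1 : (0 : ℝ) ≤ (n : ℝ) - 1 := by linarith
    have a2 : (0 : ℝ) ≤ (n : ℝ) - 2 := by linarith
    have a3 : (0 : ℝ) ≤ (n : ℝ) - 3 := by linarith
    positivity
  have hup2 : 64 * (F n 4 : ℝ) ≤
      ((n : ℝ) * (n - 1) * (n - 2) * (n - 3)) * (1 - (5 - 5 * ε) / n) := by
    refine hup.trans ?_
    apply mul_le_mul_of_nonneg_left _ hP
    linarith
  have hup3 : 64 * (F n 4 : ℝ) ≤ (n : ℝ) ^ 4 - 11 * n ^ 3 + 5 * ε * n ^ 3 + 41 * n ^ 2 := by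
    refine hup2.trans ?_
    have h1 : ((n : ℝ) * (n - 1) * (n - 2) * (n - 3)) * (1 - (5 - 5 * ε) / n) =
        (n : ℝ) * (n - 1) * (n - 2) * (n - 3) - (5 - 5 * ε) * ((n - 1) * (n - 2) * (n - 3)) := by
      field_simp
    rw [h1]
    have h2 : (0 : ℝ) ≤ 5 * ε * (n ^ 3 - (n - 1) * (n - 2) * (n - 3)) := by
      apply mul_nonneg (by positivity)
      nlinarith
    nlinarith
  rw [Real.dist_eq, abs_lt]
  constructor
  · rw [lt_sub_iff_add_lt, lt_div_iff₀ hn3]
    nlinarith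
  · rw [sub_lt_iff_lt_add, div_lt_iff₀ hn3]
    have h1 : 164 < η * n := by
      have h2 : 164 / η < n := lt_of_lt_of_le hM (by exact_mod_cast hnM)
      rwa [div_lt_iff₀ hη, mul_comm] at h2
    have h3 : 41 * (n : ℝ) ^ 2 < η / 4 * n ^ 3 := by
      have h4 : (0 : ℝ) < (n : ℝ) ^ 2 := by positivity
      nlinarith
    have h5 : 5 * ε * (n : ℝ) ^ 3 = η / 4 * n ^ 3 := by
      rw [hε]; ring
    nlinarith

end Pool.Agent.Lib.MPf3446c
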