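import Pool.Agent.Lib.MP_f3446c_co.Defs

/-!
# Counting transitive subtournaments by their sources
-/

set_option autoImplicit false

namespace Pool.Agent.Lib.MPf3446c

open Finset Classical

variable {V : Type*}

/-- transitive `k`-subsets of `S` -/
noncomputable def trS (T : V → V → Prop) (S : Finset V) (k : ℕ) : Finset (Finset V) :=
  (S.powersetCard k).filter (fun X => TransitiveOn T X)

theorem mem_trS {T : V → V → Prop} {S X : Finset V} {k : ℕ} :
    X ∈ trS T S k ↔ X ⊆ S ∧ X.card = k ∧ TransitiveOn T X := by
  unfold trS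
  rw [mem_filter, mem_powersetCard, and_assoc]

theorem tr_eq [Fintype V] (T : V → V → Prop) (k : ℕ) : tr T k = (trS T univ k).card := by
  unfold tr
  rw [← Set.ncard_coe_finset]
  congr 1
  ext X
  simp [mem_trS]

theorem IsTournament.asymm {T : V → V → Prop} (hT : IsTournament T) {u v : V} (h : T u v) :
    ¬ T v u := by
  intro h'
  have hne : u ≠ v := by
    rintro rfl
    exact hT.1 _ h
  exact ((hT.2 u v hne).mp h) h'

theorem TransitiveOn.mono {T : V → V → Prop} {X Y : Finset V} (h : TransitiveOn T X)
    (hY : Y ⊆ X) : TransitiveOn T Y :=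
  fun a ha b hb c hc => h a (hY ha) b (hY hb) c (hY hc)

/-- a transitive set has a source -/
theorem exists_source {T : V → V → Prop} (hT : IsTournament T) {X : Finset V}
    (hX : TransitiveOn T X) (hne : X.Nonempty) : ∃ v ∈ X, ∀ x ∈ X, x ≠ v → T v x := by
  obtain ⟨v, hv, hmax⟩ := X.exists_max_image (fun v => (X.filter (T v)).card) hne
  refine ⟨v, hv, fun x hx hxv => ?_⟩
  by_contra hn
  have h1 : T x v := (hT.2 x v hxv).mpr hn
  have h2 : (X.filter (T v)) ⊂ (X.filter (T x)) := by
    rw [Finset.ssubset_iff_of_subset]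
    · refine ⟨v, mem_filter.mpr ⟨hv, h1⟩, fun h => ?_⟩
      exact hT.1 v (mem_filter.mp h).2
    · intro y hy
      rw [mem_filter] at hy ⊢
      exact ⟨hy.1, hX x hx v hv y hy.1 h1 hy.2⟩
  have h3 := card_lt_card h2
  have h4 := hmax x hx
  omega

theorem trS_zero (T : V → V → Prop) (S : Finset V) : (trS T S 0).card = 1 := by
  have : trS T S 0 = {∅} := by
    ext X
    rw [mem_trS, mem_singleton]
    constructor
    · rintro ⟨_, h, _⟩
      exact card_eq_zero.mp h
    · rintro rfl
      exact ⟨empty_subset _, card_empty, fun a ha => absurd ha (notMem_empty a)⟩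
  rw [this, card_singleton]

theorem trS_succ {T : V → V → Prop} (hT : IsTournament T) (S : Finset V) (k : ℕ) :
    (trS T S (k + 1)).card = ∑ v ∈ S, (trS T (S.filter (T v)) k).card := by
  have hins : ∀ v, ∀ Y ∈ trS T (S.filter (T v)) k, v ∉ Y := by
    intro v Y hY hv
    exact hT.1 v (mem_filter.mp ((mem_trS.mp hY).1 hv)).2
  have h1 : trS T S (k + 1) =
      S.biUnion (fun v => (trS T (S.filter (T v)) k).image (insert v)) := by
    ext X
    rw [mem_biUnion, mem_trS]
    constructor
    · rintro ⟨hXS, hc, htr⟩
      have hne : X.Nonempty := by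
        rw [← card_pos]; omega
      obtain ⟨v, hv, hs⟩ := exists_source hT htr hne
      refine ⟨v, hXS hv, mem_image.mpr ⟨X.erase v, ?_, insert_erase hv⟩⟩
      rw [mem_trS]
      refine ⟨fun x hx => ?_, ?_, htr.mono (erase_subset _ _)⟩
      · rw [mem_erase] at hx
        exact mem_filter.mpr ⟨hXS hx.2, hs x hx.2 hx.1⟩
      · rw [card_erase_of_mem hv, hc]
        rfl
    · rintro ⟨v, hv, hX⟩
      obtain ⟨Y, hY, rfl⟩ := mem_image.mp hX
      have hvY := hins v Y hY
      rw [mem_trS] at hY
      obtain ⟨hYS, hYc, hYt⟩ := hY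
      refine ⟨?_, ?_, ?_⟩
      · intro x hx
        rcases mem_insert.mp hx with rfl | hx
        · exact hv
        · exact (mem_filter.mp (hYS hx)).1
      · rw [card_insert_of_notMem hvY, hYc]
      · intro a ha b hb c hc hab hbc
        rcases mem_insert.mp hc with rfl | hc'
        · exfalso
          rcases mem_insert.mp hb with rfl | hb'
          · exact hT.1 _ hbc
          · exact hT.asymm hbc (mem_filter.mp (hYS hb')).2
        · rcases mem_insert.mp ha with rfl | ha'
          · exact (mem_filter.mp (hYS hc')).2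
          · rcases mem_insert.mp hb with rfl | hb'
            · exact absurd hab (hT.asymm (mem_filter.mp (hYS ha')).2)
            · exact hYt a ha' b hb' c hc' hab hbc
  rw [h1, card_biUnion]
  · apply sum_congr rfl
    intro v _
    rw [card_image_of_injOn]
    intro Y hY Z hZ hYZ
    have hvY := hins v Y hY
    have hvZ := hins v Z hZ
    have h2 : (insert v Y).erase v = (insert v Z).erase v := by
      rw [show insert v Y = insert v Z from hYZ]
    rwa [erase_insert hvY, erase_insert hvZ] at h2
  · intro v _ w _ hvw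
    show Disjoint _ _
    rw [Finset.disjoint_left]
    intro X hX1 hX2
    obtain ⟨Y, hY, rfl⟩ := mem_image.mp hX1
    obtain ⟨Z, hZ, hZX⟩ := mem_image.mp hX2
    have h3 : w ∈ insert v Y := by
      rw [← hZX]; exact mem_insert_self _ _
    have h4 : v ∈ insert w Z := by
      rw [hZX]; exact mem_insert_self _ _
    have h5 : T v w := by
      rcases mem_insert.mp h3 with h | h
      · exact absurd h.symm hvw
      · exact (mem_filter.mp ((mem_trS.mp hY).1 h)).2
    have h6 : T w v := by
      rcases mem_insert.mp h4 with h | h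
      · exact absurd h hvw
      · exact (mem_filter.mp ((mem_trS.mp hZ).1 h)).2
    exact hT.asymm h5 h6

theorem trS_one {T : V → V → Prop} (hT : IsTournament T) (S : Finset V) :
    (trS T S 1).card = S.card := by
  rw [trS_succ hT]
  simp [trS_zero]

theorem trS_two {T : V → V → Prop} (hT : IsTournament T) (S : Finset V) :
    (trS T S 2).card = S.card.choose 2 := by
  rw [← card_powersetCard]
  congr 1
  unfold trS
  rw [filter_eq_self]
  intro X hX
  rw [mem_powersetCard] at hX
  obtain ⟨x, y, hxy, rfl⟩ := card_eq_two.mp hX.2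
  intro a ha b hb c hc hab hbc
  have hne : a ≠ b := by
    rintro rfl
    exact hT.1 _ hab
  have hne' : b ≠ c := by
    rintro rfl
    exact hT.1 _ hbc
  have hac : a ≠ c := by
    rintro rfl
    exact hT.asymm hab hbc
  simp only [mem_insert, mem_singleton] at ha hb hc
  rcases ha with rfl | rfl <;> rcases hb with rfl | rfl <;> rcases hc with rfl | rfl <;>
    first
    | exact absurd rfl hne
    | exact absurd rfl hne'
    | exact absurd rfl hac

/-- `∑ d(v) = C(|S|,2)` -/
theorem sum_deg {T : V → V → Prop} (hT : IsTournament T) (S : Finset V) :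
    ∑ v ∈ S, (S.filter (T v)).card = S.card.choose 2 := by
  rw [← trS_two hT S, trS_succ hT]
  apply sum_congr rfl
  intro v _
  rw [trS_one hT]

theorem trS_three {T : V → V → Prop} (hT : IsTournament T) (S : Finset V) :
    (trS T S 3).card = ∑ v ∈ S, ((S.filter (T v)).card).choose 2 := by
  rw [trS_succ hT]
  apply sum_congr rfl
  intro v _
  rw [trS_two hT]

theorem trS_three' {T : V → V → Prop} (hT : IsTournament T) (S : Finset V) :
    (trS T S 3).card = ∑ v ∈ S, ∑ w ∈ S.filter (T v), ((S.filter (T v)).filter (T w)).card := by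
  rw [trS_succ hT]
  apply sum_congr rfl
  intro v _
  rw [trS_succ hT]
  apply sum_congr rfl
  intro w _
  rw [trS_one hT]

theorem trS_four {T : V → V → Prop} (hT : IsTournament T) (S : Finset V) :
    (trS T S 4).card =
      ∑ v ∈ S, ∑ w ∈ S.filter (T v), (((S.filter (T v)).filter (T w)).card).choose 2 := by
  rw [trS_succ hT]
  apply sum_congr rfl
  intro v _
  rw [trS_three hT]

end Pool.Agent.Lib.MPf3446c
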