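import Mathlib

/-!
# Definitions for MP_f3446c_co (transitive subtournaments)
-/

set_option autoImplicit false

namespace Pool.Agent.Lib.MPf3446c

/-- `T` is the dominance relation of a tournament with vertex set `V`: no vertex dominates itself,
and of two different vertices exactly one dominates the other. -/
def IsTournament {V : Type*} (T : V → V → Prop) : Prop :=
  (∀ v, ¬ T v v) ∧ ∀ u v, u ≠ v → (T u v ↔ ¬ T v u)

/-- The subtournament on the set `X` is transitive. -/
def TransitiveOn {V : Type*} (T : V → V → Prop) (X : Finset V) : Prop :=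
  ∀ a ∈ X, ∀ b ∈ X, ∀ c ∈ X, T a b → T b c → T a c

/-- `tr_k(T)`: the number of `k`-element sets of vertices on which `T` is transitive. -/
noncomputable def tr {V : Type*} (T : V → V → Prop) (k : ℕ) : ℕ :=
  Set.ncard {X : Finset V | X.card = k ∧ TransitiveOn T X}

/-- `F(n,k)`: the least number of transitive `k`-vertex subtournaments of an `n`-tournament. -/
noncomputable def F (n k : ℕ) : ℕ :=
  sInf {m : ℕ | ∃ T : Fin n → Fin n → Prop, IsTournament T ∧ tr T k = m}

/-- `T` is a doubly regular tournament on `n` vertices: any two vertices have exactly `(n-3)/4`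
common out-neighbours. -/
def DoublyRegular {V : Type*} (T : V → V → Prop) : Prop :=
  IsTournament T ∧ ∀ u v, u ≠ v → 4 * Set.ncard {x | T u x ∧ T v x} + 3 = Nat.card V

/-- `T` is a near-homogeneous tournament on `n` vertices: every vertex dominates `(n-1)/2`
vertices, and any two vertices have `(n-5)/4` or `(n-1)/4` common out-neighbours. -/
def NearHomogeneous {V : Type*} (T : V → V → Prop) : Prop :=
  IsTournament T ∧ (∀ u, 2 * Set.ncard {x | T u x} + 1 = Nat.card V) ∧
    ∀ u v, u ≠ v → 4 * Set.ncard {x | T u x ∧ T v x} + 5 = Nat.card V ∨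
      4 * Set.ncard {x | T u x ∧ T v x} + 1 = Nat.card V

/-- The convexity bound for `k = 4`. -/
def L (n : ℕ) : ℚ :=
  if n % 4 = 0 then (n : ℚ) * (n - 4) * (n ^ 2 - 7 * n + 8) / 64
  else if n % 4 = 1 then (n : ℚ) * (n - 1) * (n - 5) ^ 2 / 64
  else if n % 4 = 2 then (n : ℚ) * (n - 2) * (n - 3) * (n - 6) / 64
  else (n : ℚ) * (n - 1) * (n - 3) * (n - 7) / 64

end Pool.Agent.Lib.MPf3446c
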