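import Pool.Agent.Lib.MP_f3446c_co.Adj

/-!
# Orders `4j+3`, `4j+2`, `4j+1`: when is the convexity bound attained
-/

set_option autoImplicit false

namespace Pool.Agent.Lib.MPf3446c

open Finset Classical

variable {V : Type*} [Fintype V]

theorem zero_of_add {x y c : ℚ} (hx : 0 ≤ x) (hy : 0 ≤ y) (hc : 0 < c) (h : x + c * y = 0) :
    x = 0 ∧ y = 0 := by
  have h1 : 0 ≤ c * y := mul_nonneg hc.le hy
  have h2 : x = 0 := by linarith
  have h3 : c * y = 0 := by linarith
  exact ⟨h2, (mul_eq_zero.mp h3).resolve_left hc.ne'⟩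

theorem E2_zero_of_sum {T : V → V → Prop} {c e : ℤ} {k : ℚ} (hk : 0 ≤ k)
    (h : ((E2 T c : ℤ) : ℚ) + k * (E1 T e : ℤ) = 0) : E2 T c = 0 := by
  have h1 : (0 : ℚ) ≤ (E2 T c : ℤ) := by exact_mod_cast E2_nonneg T c
  have h2 : (0 : ℚ) ≤ (E1 T e : ℤ) := by exact_mod_cast E1_nonneg T e
  have h3 := mul_nonneg hk h2
  have h4 : ((E2 T c : ℤ) : ℚ) = 0 := by linarith
  exact_mod_cast h4

theorem E1_zero_of_sum {T : V → V → Prop} {c e : ℤ} {k : ℚ} (hk : 0 < k)
    (h : ((E2 T c : ℤ) : ℚ) + k * (E1 T e : ℤ) = 0) : E1 T e = 0 := by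
  have h1 : (0 : ℚ) ≤ (E2 T c : ℤ) := by exact_mod_cast E2_nonneg T c
  have h2 : (0 : ℚ) ≤ (E1 T e : ℤ) := by exact_mod_cast E1_nonneg T e
  have h4 := (zero_of_add h1 h2 hk h).2
  exact_mod_cast h4

/-! ### order `4j+3` -/

theorem dr_of_eq {T : V → V → Prop} (hT : IsTournament T) {j : ℕ} (hj : 1 ≤ j)
    (hn : Fintype.card V = 4 * j + 3) (h : (tr T 4 : ℚ) = L (4 * j + 3)) {u v : V} (huv : u ≠ v) :
    com T u v = j := by
  have hj' : (1 : ℚ) ≤ j := by exact_mod_cast hj
  have h1 := main3 hT hn
  have h2 := main3' hT hn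
  rw [h] at h1 h2
  have h3 : E2 T (j - 1) = 0 :=
    E2_zero_of_sum (k := (j : ℚ) - 1) (e := 2 * j) (by linarith) (by linarith)
  have h4 : E2 T j = 0 :=
    E2_zero_of_sum (k := (j : ℚ)) (e := 2 * j) (by linarith) (by linarith)
  have h5 := E2_eq_zero' hT h3 huv
  have h6 := E2_eq_zero' hT h4 huv
  omega

theorem eq_of_dr {T : V → V → Prop} (hT : IsTournament T) {j : ℕ}
    (hn : Fintype.card V = 4 * j + 3) (h : ∀ u v, u ≠ v → com T u v = j) :
    (tr T 4 : ℚ) = L (4 * j + 3) ∧ ∀ v, deg T v = 2 * j + 1 := by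
  have hne : ∀ v w, T v w → v ≠ w := by
    rintro v w h rfl
    exact hT.1 _ h
  have h1 := main3 hT hn
  have h2 := main3' hT hn
  have h3 : E2 T (j - 1) = 0 := by
    apply E2_eq_zero_of
    intro v w hvw
    right
    rw [h v w (hne v w hvw)]
    ring
  have h4 : E2 T j = 0 := by
    apply E2_eq_zero_of
    intro v w hvw
    left
    exact h v w (hne v w hvw)
  rw [h3] at h1
  rw [h4] at h2
  have h5 : ((E1 T (2 * j) : ℤ) : ℚ) = 0 := by
    have : (2 * (tr T 4 : ℚ)) - 2 * tr T 4 = 0 := sub_self _
    nth_rewrite 1 [h1] at this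
    rw [h2] at this
    push_cast at this ⊢
    linarith
  have h6 : E1 T (2 * j) = 0 := by exact_mod_cast h5
  constructor
  · rw [h5] at h1
    push_cast at h1
    linarith
  · have h7 : ∀ v, 0 ≤ 2 * (j : ℤ) + 1 - deg T v := by
      intro v
      rcases E1_eq_zero h6 v with h | h <;> omega
    have h8 : ∑ v, (2 * (j : ℤ) + 1 - deg T v) = 0 := by
      rw [sum_sub_distrib, sum_const, card_univ, nsmul_eq_mul]
      have h9 := sum_deg' hT
      rw [hn] at h9 ⊢
      push_cast at h9 ⊢
      have h10 : 2 * ((4 * (j : ℤ) + 3) * (2 * j + 1) - ∑ x, deg T x) = 0 := by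
        rw [mul_sub, h9]
        ring
      linarith
    intro v
    have h9 := (sum_eq_zero_iff_of_nonneg (fun v _ => h7 v)).mp h8 v (mem_univ _)
    linarith

/-! ### deleting a vertex -/

theorem card_subtype_ne (w : V) (P : V → Prop) [DecidablePred P] :
    ((univ.filter (fun b : {x : V // x ≠ w} => P b.1)).card : ℤ)
      = (univ.filter P).card - if P w then 1 else 0 := by
  have h1 : (univ.filter (fun b : {x : V // x ≠ w} => P b.1)).map (Function.Embedding.subtype _)
      = (univ.filter P).erase w := by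
    ext x
    simp only [mem_map, mem_filter, mem_univ, true_and, Function.Embedding.subtype_apply,
      mem_erase]
    constructor
    · rintro ⟨b, hb, rfl⟩
      exact ⟨b.2, hb⟩
    · rintro ⟨h1, h2⟩
      exact ⟨⟨x, h1⟩, h2, rfl⟩
  rw [← card_map, h1, card_erase_eq_ite]
  by_cases hw : P w
  · have hmem : w ∈ univ.filter P := mem_filter.mpr ⟨mem_univ _, hw⟩
    have hpos : 0 < (univ.filter P).card := card_pos.mpr ⟨w, hmem⟩
    rw [if_pos hmem, if_pos hw]
    omega
  · rw [if_neg (fun h => hw (mem_filter.mp h).2), if_neg hw]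
    omega

theorem delete_dr {T : V → V → Prop} (hT : IsTournament T) {j : ℕ} (hj : 1 ≤ j)
    (hn : Fintype.card V = 4 * j + 3) (h : ∀ u v, u ≠ v → com T u v = j) :
    (F (4 * j + 2) 4 : ℚ) = L (4 * j + 2) := by
  obtain ⟨_, hdeg⟩ := eq_of_dr hT hn h
  have hne : Nonempty V := by
    rw [← Fintype.card_pos_iff, hn]
    omega
  obtain ⟨w⟩ := hne
  let T' : {x : V // x ≠ w} → {x : V // x ≠ w} → Prop := fun a b => T a.1 b.1
  have hT' : IsTournament T' := hT.comap Subtype.val_injective
  have hc : Fintype.card {x : V // x ≠ w} = 4 * j + 2 := by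
    rw [Fintype.card_subtype_compl, Fintype.card_subtype_eq, hn]
    rfl
  apply F_eq_of hT' hc (by omega)
  have h1 := main2 hT' hc
  have h2 : E2 T' (j - 1) = 0 := by
    apply E2_eq_zero_of
    intro u v huv
    have h3 : com T' u v = com T u.1 v.1 - if T u.1 w ∧ T v.1 w then 1 else 0 := by
      unfold com
      exact card_subtype_ne w (fun x => T u.1 x ∧ T v.1 x)
    have hne : u.1 ≠ v.1 := by
      intro h
      have : T u.1 v.1 := huv
      rw [h] at this
      exact hT.1 _ this
    rw [h3, h _ _ hne]
    split_ifs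
    · left; rfl
    · right; ring
  have h4 : E1 T' (2 * j) = 0 := by
    apply E1_eq_zero_of
    intro v
    have h3 : deg T' v = deg T v.1 - if T v.1 w then 1 else 0 := by
      unfold deg
      exact card_subtype_ne w (fun x => T v.1 x)
    rw [h3, hdeg]
    split_ifs
    · left; ring
    · right; ring
  rw [h2, h4] at h1
  push_cast at h1
  linarith

/-! ### order `4j+2` -/

/-- extension of a tournament by one vertex, dominating the vertices with property `H` -/
def ext (T : V → V → Prop) (H : V → Prop) : Option V → Option V → Prop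
  | none, none => False
  | none, some v => H v
  | some v, none => ¬ H v
  | some u, some v => T u v

omit [Fintype V] in
theorem ext_tournament {T : V → V → Prop} (hT : IsTournament T) (H : V → Prop) :
    IsTournament (ext T H) := by
  constructor
  · intro v
    cases v with
    | none => exact fun h => h
    | some v => exact hT.1 v
  · intro u v huv
    cases u with
    | none =>
      cases v with
      | none => exact absurd rfl huv
      | some v =>
        show H v ↔ ¬ ¬ H v
        rw [not_not]
    | some u =>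
      cases v with
      | none =>
        show ¬ H u ↔ ¬ H u
        exact Iff.rfl
      | some v =>
        exact hT.2 u v (fun h => huv (by rw [h]))

theorem card_option (P : Option V → Prop) [DecidablePred P] :
    ((univ.filter P).card : ℤ) = (if P none then 1 else 0)
      + (univ.filter (fun v => P (some v))).card := by
  rw [card_filter, card_filter, Fintype.sum_option]
  push_cast
  rfl

theorem ext_of_eq {T : V → V → Prop} (hT : IsTournament T) {j : ℕ} (hj : 2 ≤ j)
    (hn : Fintype.card V = 4 * j + 2) (h : (tr T 4 : ℚ) = L (4 * j + 2)) :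
    ∃ T' : Option V → Option V → Prop, IsTournament T' ∧ ∀ u v, u ≠ v → com T' u v = j := by
  have hj' : (2 : ℚ) ≤ j := by exact_mod_cast hj
  have hTf := hT.flip
  have hf : (tr (fun a b => T b a) 4 : ℚ) = L (4 * j + 2) := by rw [tr_flip, h]
  have m1 := main2 hT hn
  have m2 := main2 hTf hn
  rw [h] at m1
  rw [hf] at m2
  have hE1 : E1 T (2 * j) = 0 :=
    E1_zero_of_sum (k := (j : ℚ) - 1) (c := j - 1) (by linarith) (by linarith)
  have hE2 : E2 T (j - 1) = 0 :=
    E2_zero_of_sum (k := (j : ℚ) - 1) (e := 2 * j) (by linarith) (by linarith)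
  have hE2f : E2 (fun a b => T b a) (j - 1) = 0 :=
    E2_zero_of_sum (k := (j : ℚ) - 1) (e := 2 * j) (by linarith) (by linarith)
  -- high vertices
  set H : V → Prop := fun v => deg T v = 2 * j + 1 with hH
  set lo : V → ℤ := fun v => if H v then 0 else 1 with hlo
  have lo01 : ∀ v, lo v = 0 ∨ lo v = 1 := by
    intro v
    simp only [hlo]
    split_ifs
    · left; rfl
    · right; rfl
  have losq : ∀ v, lo v * lo v = lo v := by
    intro v
    rcases lo01 v with h | h <;> rw [h] <;> rfl
  have hdeg : ∀ v, deg T v = 2 * j + 1 - lo v := by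
    intro v
    simp only [hlo]
    split_ifs with h
    · rw [sub_zero]; exact h
    · rcases E1_eq_zero hE1 v with h' | h'
      · rw [h']; ring
      · exact absurd h' h
  have hsum : ∑ v, lo v = 2 * j + 1 := by
    have h9 := sum_deg' hT
    rw [sum_congr rfl (fun v _ => hdeg v), sum_sub_distrib, sum_const, card_univ, nsmul_eq_mul,
      hn] at h9
    push_cast at h9
    linarith
  -- common out-degrees: upper bound
  have hle : ∀ u v, u ≠ v → 0 ≤ j - lo u * lo v - com T u v := by
    intro u v huv
    have h1 := E2_eq_zero' hT hE2 huv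
    have h2 := E2_eq_zero' hTf hE2f huv
    have h3 := com_sub_com_flip hT huv
    rw [hdeg u, hdeg v, hn] at h3
    push_cast at h3
    rcases lo01 u with hu | hu <;> rcases lo01 v with hv | hv <;> rw [hu, hv] at h3 ⊢ <;> omega
  -- the total
  have htot : ∑ v, ∑ w ∈ univ.filter (T v), (j - lo v * lo w - com T v w) = 0 := by
    have h1 := three_com hT
    have h2 := three_deg hT (2 * j)
    rw [hE1, hn] at h2
    have h3 := sum_arcs_symm hT (fun u v => lo u * lo v) (fun u v => mul_comm _ _)
    have h4 : ∑ v, ∑ w, lo v * lo w = (2 * j + 1) * (2 * j + 1) := by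
      rw [← hsum, sum_mul_sum]
    rw [h4, sum_congr rfl (fun v _ => losq v), hsum] at h3
    have h5 := arcs_card hT
    rw [hn] at h5
    have h6 : ∀ v, ∑ w ∈ univ.filter (T v), ((j : ℤ) - lo v * lo w - com T v w) =
        j * ∑ _w ∈ univ.filter (T v), (1 : ℤ) - ∑ w ∈ univ.filter (T v), lo v * lo w
          - ∑ w ∈ univ.filter (T v), com T v w := by
      intro v
      rw [sum_sub_distrib, sum_sub_distrib]
      congr 2
      rw [mul_sum]
      apply sum_congr rfl
      intro w _
      ring
    rw [sum_congr rfl (fun v _ => h6 v), sum_sub_distrib, sum_sub_distrib, ← mul_sum, ← h1]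
    push_cast at h2 h5
    have h7 : (2 : ℤ) * (j * ∑ i, ∑ _w ∈ univ.filter (T i), (1 : ℤ)
        - ∑ v, ∑ w ∈ univ.filter (T v), lo v * lo w - tr T 3) = 0 := by
      linear_combination (j : ℤ) * h5 - h3 - h2
    linarith
  have hcomT : ∀ u v, T u v → com T u v = j - lo u * lo v := by
    intro u v huv
    have hne : ∀ a b, T a b → a ≠ b := by
      rintro a b h rfl
      exact hT.1 _ h
    have h1 := (sum_eq_zero_iff_of_nonneg (fun a _ => sum_nonneg fun b hb =>
      hle a b (hne a b (mem_filter.mp hb).2))).mp htot u (mem_univ _)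
    have h2 := (sum_eq_zero_iff_of_nonneg (fun b hb =>
      hle u b (hne u b (mem_filter.mp hb).2))).mp h1 v (mem_filter.mpr ⟨mem_univ _, huv⟩)
    linarith
  have hcom : ∀ u v, u ≠ v → com T u v = j - lo u * lo v := by
    intro u v huv
    by_cases h1 : T u v
    · exact hcomT u v h1
    · rw [com_comm, mul_comm]
      exact hcomT v u ((hT.2 v u huv.symm).mpr h1)
  -- number of high out-neighbours
  have hh : ∀ v, ∑ x, A T v x * (1 - lo x) = j := by
    intro v
    have h1 := sum_com hT v
    have h2 : ∑ w, com T v w = ∑ w, ((j : ℤ) - lo v * lo w) + (deg T v - (j - lo v * lo v)) := by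
      rw [← add_sum_erase univ _ (mem_univ v), ← add_sum_erase univ
        (fun w => (j : ℤ) - lo v * lo w) (mem_univ v), com_self]
      rw [sum_congr rfl (fun w hw => hcom v w (Ne.symm (mem_erase.mp hw).1))]
      ring
    rw [h2, sum_sub_distrib, sum_const, card_univ, nsmul_eq_mul, ← mul_sum, hsum, hn] at h1
    have h3 : ∀ x, A T v x * (((4 * j + 2 : ℕ) : ℤ) - 1 - deg T x) =
        (2 * j + 1) * A T v x - A T v x * (1 - lo x) := by
      intro x
      rw [hdeg x]
      push_cast
      ring
    rw [sum_congr rfl (fun x _ => h3 x), sum_sub_distrib, ← mul_sum, ← deg_eq, hdeg v] at h1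
    push_cast at h1
    have h4 := losq v
    linear_combination h1 - h4
  refine ⟨ext T H, ext_tournament hT H, ?_⟩
  have hnone : ∀ v, com (ext T H) none (some v) = j := by
    intro v
    unfold com
    rw [card_option, if_neg (fun h => h.1), zero_add, ← hh v, card_filter]
    push_cast
    apply sum_congr rfl
    intro x _
    split_ifs with h
    · have h1 : H x := h.1
      have h2 : T v x := h.2
      rw [show A T v x = 1 from if_pos h2, show lo x = 0 from if_pos h1]
      rfl
    · by_cases h1 : H x
      · have h2 : ¬ T v x := fun h2 => h ⟨h1, h2⟩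
        rw [show A T v x = 0 from if_neg h2, zero_mul]
      · rw [show lo x = 1 from if_neg h1, sub_self, mul_zero]
  intro u v huv
  cases u with
  | none =>
    cases v with
    | none => exact absurd rfl huv
    | some v => exact hnone v
  | some u =>
    cases v with
    | none => rw [com_comm]; exact hnone u
    | some v =>
      have hne : u ≠ v := fun h => huv (by rw [h])
      have h1 : com (ext T H) (some u) (some v) = lo u * lo v + com T u v := by
        unfold com
        rw [card_option]
        congr 1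
        split_ifs with h
        · have h1 : ¬ H u := h.1
          have h2 : ¬ H v := h.2
          rw [show lo u = 1 from if_neg h1, show lo v = 1 from if_neg h2]
          rfl
        · by_cases h1 : H u
          · rw [show lo u = 0 from if_pos h1, zero_mul]
          · have h2 : H v := by
              by_contra h2
              exact h ⟨h1, h2⟩
            rw [show lo v = 0 from if_pos h2, mul_zero]
      rw [h1, hcom u v hne]
      ring

/-! ### order `4j+1` -/

theorem nh_of_eq {T : V → V → Prop} (hT : IsTournament T) {j : ℕ} (hj : 2 ≤ j)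
    (hn : Fintype.card V = 4 * j + 1) (h : (tr T 4 : ℚ) = L (4 * j + 1)) :
    (∀ v, deg T v = 2 * j) ∧ ∀ u v, u ≠ v → com T u v = j - 1 ∨ com T u v = j := by
  have hj' : (2 : ℚ) ≤ j := by exact_mod_cast hj
  have m1 := main1 hT hn
  have m2 := main1' hT hn
  rw [h] at m1 m2
  have hE1 : E1 T (2 * j) = 0 :=
    E1_zero_of_sum (k := (j : ℚ) - 1) (c := j - 1) (by linarith) (by linarith)
  have hE1' : E1 T (2 * j - 1) = 0 :=
    E1_zero_of_sum (k := (j : ℚ) - 1) (c := j - 1) (by linarith) (by linarith)
  have hE2 : E2 T (j - 1) = 0 :=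
    E2_zero_of_sum (k := (j : ℚ) - 1) (e := 2 * j) (by linarith) (by linarith)
  constructor
  · intro v
    have h1 := E1_eq_zero hE1 v
    have h2 := E1_eq_zero hE1' v
    omega
  · intro u v huv
    have h1 := E2_eq_zero' hT hE2 huv
    omega

theorem eq_of_nh {T : V → V → Prop} (hT : IsTournament T) {j : ℕ}
    (hn : Fintype.card V = 4 * j + 1) (h1 : ∀ v, deg T v = 2 * j)
    (h2 : ∀ u v, u ≠ v → com T u v = j - 1 ∨ com T u v = j) : (tr T 4 : ℚ) = L (4 * j + 1) := by
  have m1 := main1' hT hn
  have h3 : E1 T (2 * j) = 0 := E1_eq_zero_of fun v => Or.inl (h1 v)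
  have h4 : E2 T (j - 1) = 0 := by
    apply E2_eq_zero_of
    intro v w hvw
    have hne : v ≠ w := by
      rintro rfl
      exact hT.1 _ hvw
    rcases h2 v w hne with h | h
    · left; exact h
    · right; rw [h]; ring
  rw [h3, h4] at m1
  push_cast at m1
  linarith

end Pool.Agent.Lib.MPf3446c
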