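import Pool.Agent.Lib.MP_f3446c_co.Ident

/-!
# Properties of `F`
-/

set_option autoImplicit false

namespace Pool.Agent.Lib.MPf3446c

open Finset Classical

variable {V : Type*}

theorem isTournament_lt (n : ℕ) : IsTournament (fun a b : Fin n => a < b) := by
  refine ⟨fun v => lt_irrefl v, fun u v huv => ?_⟩
  rw [not_lt]
  constructor
  · exact fun h => h.le
  · exact fun h => lt_of_le_of_ne h huv

theorem IsTournament.comap {W : Type*} {T : V → V → Prop} (hT : IsTournament T) {f : W → V}
    (hf : Function.Injective f) : IsTournament (fun a b => T (f a) (f b)) :=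
  ⟨fun v => hT.1 _, fun u v huv => hT.2 _ _ (fun h => huv (hf h))⟩

theorem F_attained (n k : ℕ) : ∃ T : Fin n → Fin n → Prop, IsTournament T ∧ tr T k = F n k := by
  have h : {m : ℕ | ∃ T : Fin n → Fin n → Prop, IsTournament T ∧ tr T k = m}.Nonempty :=
    ⟨_, _, isTournament_lt n, rfl⟩
  exact Nat.sInf_mem h

theorem F_le_fin {n k : ℕ} {T : Fin n → Fin n → Prop} (hT : IsTournament T) : F n k ≤ tr T k :=
  Nat.sInf_le ⟨T, hT, rfl⟩

theorem F_le_trS {T : V → V → Prop} (hT : IsTournament T) (S : Finset V) (k : ℕ) :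
    F S.card k ≤ (trS T S k).card := by
  let f : Fin S.card ↪ V := S.equivFin.symm.toEmbedding.trans (Function.Embedding.subtype _)
  have hfS : ∀ i, f i ∈ S := fun i => (S.equivFin.symm i).2
  have hT' := hT.comap f.injective
  refine (F_le_fin hT').trans ?_
  rw [tr_eq]
  apply card_le_card_of_injOn (fun X => X.map f)
  · intro X hX
    have hX' := mem_trS.mp hX
    refine mem_trS.mpr ⟨?_, ?_, ?_⟩
    · intro x hx
      obtain ⟨i, _, rfl⟩ := mem_map.mp hx
      exact hfS i
    · rw [card_map]; exact hX'.2.1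
    · intro a ha b hb c hc
      obtain ⟨i, hi, rfl⟩ := mem_map.mp ha
      obtain ⟨j, hj, rfl⟩ := mem_map.mp hb
      obtain ⟨l, hl, rfl⟩ := mem_map.mp hc
      exact hX'.2.2 i hi j hj l hl
  · intro X _ Y _ h
    exact map_injective f h

theorem F_le_tr [Fintype V] {T : V → V → Prop} (hT : IsTournament T) (k : ℕ) :
    F (Fintype.card V) k ≤ tr T k := by
  rw [tr_eq]
  exact F_le_trS hT univ k

theorem sum_erase [Fintype V] (T : V → V → Prop) (k : ℕ) (hk : k ≤ Fintype.card V) :
    ∑ v : V, (trS T (univ.erase v) k).card = (Fintype.card V - k) * tr T k := by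
  have h1 : ∀ v : V, trS T (univ.erase v) k = (trS T univ k).filter (fun X => v ∉ X) := by
    intro v
    ext X
    rw [mem_filter, mem_trS, mem_trS]
    constructor
    · rintro ⟨h1, h2, h3⟩
      exact ⟨⟨subset_univ _, h2, h3⟩, fun h => (mem_erase.mp (h1 h)).1 rfl⟩
    · rintro ⟨⟨_, h2, h3⟩, h4⟩
      refine ⟨fun x hx => mem_erase.mpr ⟨?_, mem_univ _⟩, h2, h3⟩
      rintro rfl
      exact h4 hx
  calc ∑ v : V, (trS T (univ.erase v) k).card
      = ∑ v : V, ∑ X ∈ trS T univ k, (if v ∉ X then 1 else 0) := by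
        apply sum_congr rfl
        intro v _
        rw [h1 v, card_filter]
    _ = ∑ X ∈ trS T univ k, ∑ v : V, (if v ∉ X then 1 else 0) := sum_comm
    _ = ∑ X ∈ trS T univ k, (Fintype.card V - k) := by
        apply sum_congr rfl
        intro X hX
        rw [← card_filter]
        have h2 : univ.filter (fun v => v ∉ X) = univ \ X := by
          ext v
          simp
        rw [h2, card_sdiff_of_subset (subset_univ _), card_univ, (mem_trS.mp hX).2.1]
    _ = (Fintype.card V - k) * tr T k := by
        rw [sum_const, smul_eq_mul, mul_comm, tr_eq]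

theorem F_step_aux [Fintype V] {T : V → V → Prop} (hT : IsTournament T) {n k : ℕ}
    (hn : Fintype.card V = n + 1) (hk : k ≤ n + 1) :
    (n + 1) * F n k ≤ (n + 1 - k) * tr T k := by
  have h := sum_erase T k (by rw [hn]; exact hk)
  rw [hn] at h
  rw [← h]
  have h2 : ∀ v : V, F n k ≤ (trS T (univ.erase v) k).card := by
    intro v
    have h3 := F_le_trS hT (univ.erase v) k
    rwa [card_erase_of_mem (mem_univ _), card_univ, hn, Nat.add_sub_cancel] at h3
  calc (n + 1) * F n k = ∑ _v : V, F n k := by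
        rw [sum_const, card_univ, hn, smul_eq_mul]
    _ ≤ _ := sum_le_sum fun v _ => h2 v

theorem F_step (n k : ℕ) (hk : k ≤ n + 1) : (n + 1) * F n k ≤ (n + 1 - k) * F (n + 1) k := by
  obtain ⟨T, hT, hF⟩ := F_attained (n + 1) k
  rw [← hF]
  exact F_step_aux hT (Fintype.card_fin _) hk

/-- the density of transitive subtournaments is monotone -/
theorem F_mono {k n m : ℕ} (hk : k ≤ n) (hnm : n ≤ m) :
    (F n k : ℚ) / n.choose k ≤ (F m k : ℚ) / m.choose k := by
  induction m, hnm using Nat.le_induction with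
  | base => exact le_rfl
  | succ m hm ih =>
    refine ih.trans ?_
    have h1 := F_step m k (by omega)
    have h2 : (m + 1 - k) * (m + 1).choose k = (m + 1) * m.choose k := by
      have h3 := Nat.choose_mul_succ_eq m k
      rw [mul_comm, ← h3, mul_comm]
    have hc1 : 0 < m.choose k := Nat.choose_pos (by omega)
    have hc2 : 0 < (m + 1).choose k := Nat.choose_pos (by omega)
    have hmk : 0 < m + 1 - k := by omega
    rw [div_le_div_iff₀ (by exact_mod_cast hc1) (by exact_mod_cast hc2)]
    have h4 : (m + 1) * (F m k * (m + 1).choose k) ≤ (m + 1) * (F (m + 1) k * m.choose k) := by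
      calc (m + 1) * (F m k * (m + 1).choose k) = ((m + 1) * F m k) * (m + 1).choose k := by ring
        _ ≤ ((m + 1 - k) * F (m + 1) k) * (m + 1).choose k := Nat.mul_le_mul_right _ h1
        _ = F (m + 1) k * ((m + 1 - k) * (m + 1).choose k) := by ring
        _ = (m + 1) * (F (m + 1) k * m.choose k) := by rw [h2]; ring
    have h5 := Nat.le_of_mul_le_mul_left h4 (Nat.succ_pos m)
    exact_mod_cast h5

theorem L_le_F {n : ℕ} (hn : 4 ≤ n) : L n ≤ F n 4 := by
  obtain ⟨T, hT, hF⟩ := F_attained n 4
  have h := lower hT (by rw [Fintype.card_fin]; exact hn)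
  rwa [Fintype.card_fin, hF] at h

theorem com_ncard [Fintype V] (T : V → V → Prop) (u v : V) :
    (Set.ncard {x | T u x ∧ T v x} : ℤ) = com T u v := by
  unfold com
  rw [← Set.ncard_coe_finset]
  congr 2
  ext x
  simp

theorem deg_ncard [Fintype V] (T : V → V → Prop) (u : V) :
    (Set.ncard {x | T u x} : ℤ) = deg T u := by
  unfold deg
  rw [← Set.ncard_coe_finset]
  congr 2
  ext x
  simp

/-- transfer of an inequality `tr_4 ≤ L` to `F` -/
theorem F_eq_of [Fintype V] {T : V → V → Prop} (hT : IsTournament T) {n : ℕ}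
    (hn : Fintype.card V = n) (h4 : 4 ≤ n) (h : (tr T 4 : ℚ) ≤ L n) : (F n 4 : ℚ) = L n := by
  apply le_antisymm _ (L_le_F h4)
  refine le_trans ?_ h
  rw [← hn]
  exact_mod_cast F_le_tr hT 4

end Pool.Agent.Lib.MPf3446c
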