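import Pool.Agent.Lib.MP_f3446c_co.Count

/-!
# The two moment identities, and the convexity bound for `k = 4`
-/

set_option autoImplicit false

namespace Pool.Agent.Lib.MPf3446c

open Finset Classical

variable {V : Type*} [Fintype V]

/-- out-degree -/
noncomputable def deg (T : V → V → Prop) (v : V) : ℤ := ((univ.filter (T v)).card : ℤ)

/-- common out-degree -/
noncomputable def com (T : V → V → Prop) (u v : V) : ℤ :=
  ((univ.filter (fun x => T u x ∧ T v x)).card : ℤ)

/-- score excess of a tournament -/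
noncomputable def E1 (T : V → V → Prop) (e : ℤ) : ℤ := ∑ v, (deg T v - e) * (deg T v - e - 1)

noncomputable def E2 (T : V → V → Prop) (c : ℤ) : ℤ :=
  ∑ v, ∑ w ∈ univ.filter (T v), (com T v w - c) * (com T v w - c - 1)

theorem two_mul_choose_two (x : ℕ) : 2 * ((x.choose 2 : ℕ) : ℤ) = x * (x - 1) := by
  induction x with
  | zero => simp
  | succ n ih =>
    rw [Nat.choose_succ_succ' n 1, Nat.choose_one_right]
    push_cast
    linarith

theorem filter_com (T : V → V → Prop) (v w : V) :
    (((univ.filter (T v)).filter (T w)).card : ℤ) = com T v w := by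
  unfold com
  rw [filter_filter]

theorem sum_deg' {T : V → V → Prop} (hT : IsTournament T) :
    2 * ∑ v, deg T v = (Fintype.card V : ℤ) * (Fintype.card V - 1) := by
  have h := sum_deg hT (univ : Finset V)
  have h2 := two_mul_choose_two (Fintype.card V)
  rw [card_univ] at h
  rw [← h2, ← h]
  unfold deg
  push_cast
  rfl

theorem arcs_card {T : V → V → Prop} (hT : IsTournament T) :
    2 * ∑ v, ∑ _w ∈ univ.filter (T v), (1 : ℤ) = (Fintype.card V : ℤ) * (Fintype.card V - 1) := by
  rw [← sum_deg' hT]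
  congr 1
  apply sum_congr rfl
  intro v _
  rw [sum_const, nsmul_eq_mul, mul_one]
  rfl

theorem three_deg {T : V → V → Prop} (hT : IsTournament T) (e : ℤ) :
    2 * (tr T 3 : ℤ) = E1 T e + e * ((Fintype.card V : ℤ) * (Fintype.card V - 1))
      - e * (e + 1) * Fintype.card V := by
  rw [tr_eq, trS_three hT, ← sum_deg' hT]
  push_cast
  rw [mul_sum]
  have h1 : ∀ v : V, 2 * (((univ.filter (T v)).card.choose 2 : ℕ) : ℤ) =
      (deg T v - e) * (deg T v - e - 1) + e * (2 * deg T v) - e * (e + 1) := by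
    intro v
    rw [two_mul_choose_two]
    unfold deg
    ring
  rw [sum_congr rfl (fun v _ => h1 v), sum_sub_distrib, sum_add_distrib]
  unfold E1
  rw [sum_const, card_univ, nsmul_eq_mul, ← mul_sum, ← mul_sum]
  ring

theorem three_com {T : V → V → Prop} (hT : IsTournament T) :
    (tr T 3 : ℤ) = ∑ v, ∑ w ∈ univ.filter (T v), com T v w := by
  rw [tr_eq, trS_three' hT]
  push_cast
  apply sum_congr rfl
  intro v _
  apply sum_congr rfl
  intro w _
  rw [filter_com]

theorem four_com {T : V → V → Prop} (hT : IsTournament T) (c : ℤ) :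
    2 * (2 * (tr T 4 : ℤ)) = 2 * E2 T c + 2 * c * (2 * tr T 3)
      - c * (c + 1) * ((Fintype.card V : ℤ) * (Fintype.card V - 1)) := by
  rw [three_com hT, ← arcs_card hT, tr_eq, trS_four hT]
  push_cast
  have h1 : ∀ v w : V, 2 * ((((univ.filter (T v)).filter (T w)).card.choose 2 : ℕ) : ℤ) =
      (com T v w - c) * (com T v w - c - 1) + 2 * c * com T v w - c * (c + 1) * 1 := by
    intro v w
    rw [two_mul_choose_two, filter_com]
    ring
  have h2 : 2 * ∑ v, ∑ w ∈ univ.filter (T v),
      ((((univ.filter (T v)).filter (T w)).card.choose 2 : ℕ) : ℤ) =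
      E2 T c + 2 * c * (∑ v, ∑ w ∈ univ.filter (T v), com T v w)
        - c * (c + 1) * ∑ v, ∑ _w ∈ univ.filter (T v), (1 : ℤ) := by
    rw [mul_sum]
    unfold E2
    rw [mul_sum, mul_sum, ← sum_add_distrib, ← sum_sub_distrib]
    apply sum_congr rfl
    intro v _
    rw [mul_sum, mul_sum, mul_sum, ← sum_add_distrib, ← sum_sub_distrib]
    apply sum_congr rfl
    intro w _
    exact h1 v w
  rw [h2]
  ring

/-- `4 tr_4` in terms of the excesses -/
theorem four_main {T : V → V → Prop} (hT : IsTournament T) (c e : ℤ) :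
    4 * (tr T 4 : ℤ) = 2 * E2 T c + 2 * c * E1 T e
      + 2 * c * (e * ((Fintype.card V : ℤ) * (Fintype.card V - 1))
        - e * (e + 1) * Fintype.card V)
      - c * (c + 1) * ((Fintype.card V : ℤ) * (Fintype.card V - 1)) := by
  have h1 := four_com hT c
  rw [three_deg hT e] at h1
  linarith

theorem quad_nonneg (x : ℤ) : 0 ≤ x * (x - 1) := by
  rcases le_or_gt x 0 with h | h
  · exact mul_nonneg_of_nonpos_of_nonpos h (by linarith)
  · exact mul_nonneg h.le (by linarith)

theorem quad_eq_zero {x : ℤ} (h : x * (x - 1) = 0) : x = 0 ∨ x = 1 := by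
  rcases mul_eq_zero.mp h with h | h
  · exact Or.inl h
  · right; linarith

theorem E1_nonneg (T : V → V → Prop) (e : ℤ) : 0 ≤ E1 T e :=
  sum_nonneg fun v _ => quad_nonneg _

theorem E2_nonneg (T : V → V → Prop) (c : ℤ) : 0 ≤ E2 T c :=
  sum_nonneg fun v _ => sum_nonneg fun w _ => quad_nonneg _

theorem E1_eq_zero {T : V → V → Prop} {e : ℤ} (h : E1 T e = 0) (v : V) :
    deg T v = e ∨ deg T v = e + 1 := by
  unfold E1 at h
  rw [sum_eq_zero_iff_of_nonneg (fun v _ => quad_nonneg _)] at h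
  rcases quad_eq_zero (h v (mem_univ _)) with h | h
  · left; linarith
  · right; linarith

theorem E2_eq_zero {T : V → V → Prop} {c : ℤ} (h : E2 T c = 0) {v w : V} (hvw : T v w) :
    com T v w = c ∨ com T v w = c + 1 := by
  unfold E2 at h
  rw [sum_eq_zero_iff_of_nonneg (fun v _ => sum_nonneg fun w _ => quad_nonneg _)] at h
  have h1 := h v (mem_univ _)
  rw [sum_eq_zero_iff_of_nonneg (fun w _ => quad_nonneg _)] at h1
  rcases quad_eq_zero (h1 w (mem_filter.mpr ⟨mem_univ _, hvw⟩)) with h | h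
  · left; linarith
  · right; linarith

theorem com_comm (T : V → V → Prop) (u v : V) : com T u v = com T v u := by
  unfold com
  congr 2
  ext x
  simp [and_comm]

theorem E2_eq_zero' {T : V → V → Prop} (hT : IsTournament T) {c : ℤ} (h : E2 T c = 0) {v w : V}
    (hvw : v ≠ w) : com T v w = c ∨ com T v w = c + 1 := by
  by_cases h1 : T v w
  · exact E2_eq_zero h h1
  · rw [com_comm]
    exact E2_eq_zero h ((hT.2 w v hvw.symm).mpr h1)

theorem E1_eq_zero_of {T : V → V → Prop} {e : ℤ} (h : ∀ v, deg T v = e ∨ deg T v = e + 1) :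
    E1 T e = 0 := by
  unfold E1
  apply sum_eq_zero
  intro v _
  rcases h v with h | h <;> rw [h] <;> ring

theorem E2_eq_zero_of {T : V → V → Prop} {c : ℤ}
    (h : ∀ v w, T v w → com T v w = c ∨ com T v w = c + 1) : E2 T c = 0 := by
  unfold E2
  apply sum_eq_zero
  intro v _
  apply sum_eq_zero
  intro w hw
  rcases h v w (mem_filter.mp hw).2 with h | h <;> rw [h] <;> ring

/-- the four residue classes -/
theorem L0 (j : ℕ) : L (4 * j) = (j : ℚ) * (j - 1) * (4 * j ^ 2 - 7 * j + 2) := by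
  unfold L
  rw [if_pos (by omega)]
  push_cast
  ring

theorem L1 (j : ℕ) : L (4 * j + 1) = (4 * (j : ℚ) + 1) * j * (j - 1) ^ 2 := by
  unfold L
  rw [if_neg (by omega), if_pos (by omega)]
  push_cast
  ring

theorem L2 (j : ℕ) : L (4 * j + 2) = (2 * (j : ℚ) + 1) * j * (4 * j - 1) * (j - 1) / 2 := by
  unfold L
  rw [if_neg (by omega), if_neg (by omega), if_pos (by omega)]
  push_cast
  ring

theorem L3 (j : ℕ) : L (4 * j + 3) = (4 * (j : ℚ) + 3) * (2 * j + 1) * j * (j - 1) / 2 := by
  unfold L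
  rw [if_neg (by omega), if_neg (by omega), if_neg (by omega)]
  push_cast
  ring

/-- `2 tr_4 = 2 L + E_2 + c E_1`, order `4 j` -/
theorem main0 {T : V → V → Prop} (hT : IsTournament T) {j : ℕ} (hn : Fintype.card V = 4 * j) :
    2 * (tr T 4 : ℚ) = 2 * L (4 * j) + (E2 T (j - 1) : ℤ) + (j - 1) * (E1 T (2 * j - 1) : ℤ) := by
  have h := four_main hT (j - 1) (2 * j - 1)
  rw [hn] at h
  have h' := congrArg (Int.cast : ℤ → ℚ) h
  rw [L0]
  push_cast at h'
  linear_combination h' / 2

theorem main1 {T : V → V → Prop} (hT : IsTournament T) {j : ℕ} (hn : Fintype.card V = 4 * j + 1) :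
    2 * (tr T 4 : ℚ) = 2 * L (4 * j + 1) + (E2 T (j - 1) : ℤ) + (j - 1) * (E1 T (2 * j - 1) : ℤ) := by
  have h := four_main hT (j - 1) (2 * j - 1)
  rw [hn] at h
  have h' := congrArg (Int.cast : ℤ → ℚ) h
  rw [L1]
  push_cast at h'
  linear_combination h' / 2

theorem main1' {T : V → V → Prop} (hT : IsTournament T) {j : ℕ} (hn : Fintype.card V = 4 * j + 1) :
    2 * (tr T 4 : ℚ) = 2 * L (4 * j + 1) + (E2 T (j - 1) : ℤ) + (j - 1) * (E1 T (2 * j) : ℤ) := by
  have h := four_main hT (j - 1) (2 * j)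
  rw [hn] at h
  have h' := congrArg (Int.cast : ℤ → ℚ) h
  rw [L1]
  push_cast at h'
  linear_combination h' / 2

theorem main2 {T : V → V → Prop} (hT : IsTournament T) {j : ℕ} (hn : Fintype.card V = 4 * j + 2) :
    2 * (tr T 4 : ℚ) = 2 * L (4 * j + 2) + (E2 T (j - 1) : ℤ) + (j - 1) * (E1 T (2 * j) : ℤ) := by
  have h := four_main hT (j - 1) (2 * j)
  rw [hn] at h
  have h' := congrArg (Int.cast : ℤ → ℚ) h
  rw [L2]
  push_cast at h'
  linear_combination h' / 2

theorem main3 {T : V → V → Prop} (hT : IsTournament T) {j : ℕ} (hn : Fintype.card V = 4 * j + 3) :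
    2 * (tr T 4 : ℚ) = 2 * L (4 * j + 3) + (E2 T (j - 1) : ℤ) + (j - 1) * (E1 T (2 * j) : ℤ) := by
  have h := four_main hT (j - 1) (2 * j)
  rw [hn] at h
  have h' := congrArg (Int.cast : ℤ → ℚ) h
  rw [L3]
  push_cast at h'
  linear_combination h' / 2

theorem main3' {T : V → V → Prop} (hT : IsTournament T) {j : ℕ} (hn : Fintype.card V = 4 * j + 3) :
    2 * (tr T 4 : ℚ) = 2 * L (4 * j + 3) + (E2 T j : ℤ) + j * (E1 T (2 * j) : ℤ) := by
  have h := four_main hT j (2 * j)
  rw [hn] at h
  have h' := congrArg (Int.cast : ℤ → ℚ) h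
  rw [L3]
  push_cast at h'
  linear_combination h' / 2

theorem lower {T : V → V → Prop} (hT : IsTournament T) (h4 : 4 ≤ Fintype.card V) :
    L (Fintype.card V) ≤ tr T 4 := by
  obtain ⟨j, hj⟩ : ∃ j, Fintype.card V / 4 = j := ⟨_, rfl⟩
  have hj1 : 1 ≤ j := by omega
  have hj' : (0 : ℚ) ≤ (j : ℚ) - 1 := by
    rw [sub_nonneg]
    exact_mod_cast hj1
  have key : ∀ c e : ℤ, (0 : ℚ) ≤ (E2 T c : ℤ) + (j - 1) * (E1 T e : ℤ) := by
    intro c e
    have h1 : (0 : ℚ) ≤ (E2 T c : ℤ) := by exact_mod_cast E2_nonneg T c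
    have h2 : (0 : ℚ) ≤ (E1 T e : ℤ) := by exact_mod_cast E1_nonneg T e
    have := mul_nonneg hj' h2
    linarith
  have hm : Fintype.card V % 4 = 0 ∨ Fintype.card V % 4 = 1 ∨ Fintype.card V % 4 = 2 ∨
      Fintype.card V % 4 = 3 := by omega
  rcases hm with h | h | h | h
  · have hn : Fintype.card V = 4 * j := by omega
    have := main0 hT hn
    have k := key (j - 1) (2 * j - 1)
    rw [hn]
    linarith
  · have hn : Fintype.card V = 4 * j + 1 := by omega
    have := main1 hT hn
    have k := key (j - 1) (2 * j - 1)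
    rw [hn]
    linarith
  · have hn : Fintype.card V = 4 * j + 2 := by omega
    have := main2 hT hn
    have k := key (j - 1) (2 * j)
    rw [hn]
    linarith
  · have hn : Fintype.card V = 4 * j + 3 := by omega
    have := main3 hT hn
    have k := key (j - 1) (2 * j)
    rw [hn]
    linarith

end Pool.Agent.Lib.MPf3446c
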