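import Pool.Agent.Lib.MP_f3446c_co.Equal

/-!
# Paley tournaments are doubly regular
-/

set_option autoImplicit false

namespace Pool.Agent.Lib.MPf3446c

open Finset Classical

variable (K : Type*) [Field K] [Fintype K]

/-- the Paley tournament -/
def paley (u v : K) : Prop := quadraticChar K (v - u) = 1

theorem neg_one {K : Type*} [Field K] [Fintype K] (hq : Fintype.card K % 4 = 3) :
    quadraticChar K (-1) = -1 := by
  have h2 : ringChar K ≠ 2 := by
    intro h
    have := FiniteField.even_card_of_char_two h
    omega
  rw [quadraticChar_neg_one h2]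
  exact ZMod.χ₄_nat_three_mod_four hq

theorem char_sub {K : Type*} [Field K] [Fintype K] (hq : Fintype.card K % 4 = 3) (u v : K) :
    quadraticChar K (u - v) = -quadraticChar K (v - u) := by
  rw [← neg_sub v u, neg_eq_neg_one_mul, map_mul, neg_one hq]
  ring

theorem paley_tournament (hq : Fintype.card K % 4 = 3) : IsTournament (paley K) := by
  constructor
  · intro v h
    unfold paley at h
    rw [sub_self, quadraticChar_zero] at h
    exact zero_ne_one h
  · intro u v huv
    unfold paley
    have h1 : v - u ≠ 0 := sub_ne_zero.mpr huv.symm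
    rw [char_sub hq u v]
    rcases quadraticChar_dichotomy h1 with h | h
    · rw [h]
      norm_num
    · rw [h]
      norm_num

theorem sum_shift {K : Type*} [Field K] [Fintype K] (h2 : ringChar K ≠ 2) (u : K) :
    ∑ x : K, quadraticChar K (x - u) = 0 := by
  rw [← quadraticChar_sum_zero h2]
  exact Fintype.sum_equiv (Equiv.subRight u) _ _ (fun x => rfl)

theorem sum_prod {K : Type*} [Field K] [Fintype K] (h2 : ringChar K ≠ 2) {u v : K}
    (huv : u ≠ v) : ∑ x : K, quadraticChar K (x - u) * quadraticChar K (x - v) = -1 := by
  have h0 : v - u ≠ 0 := sub_ne_zero.mpr huv.symm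
  have hsq : quadraticChar K (v - u) * quadraticChar K (v - u) = 1 := by
    have := quadraticChar_sq_one h0
    rwa [sq] at this
  have h1 : ∑ x : K, quadraticChar K (x - u) * quadraticChar K (x - v) =
      ∑ y : K, quadraticChar K y * quadraticChar K (y - 1) := by
    symm
    apply Fintype.sum_equiv ((Equiv.mulLeft₀ (v - u) h0).trans (Equiv.addRight u))
    intro y
    show quadraticChar K y * quadraticChar K (y - 1) =
      quadraticChar K ((v - u) * y + u - u) * quadraticChar K ((v - u) * y + u - v)
    have e1 : (v - u) * y + u - u = (v - u) * y := by ring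
    have e2 : (v - u) * y + u - v = (v - u) * (y - 1) := by ring
    rw [e1, e2, map_mul, map_mul]
    linear_combination -(quadraticChar K y * quadraticChar K (y - 1)) * hsq
  rw [h1]
  have h3 : ∀ y : K, quadraticChar K y * quadraticChar K (y - 1) =
      quadraticChar K (-1) * (quadraticChar K y * quadraticChar K (1 - y)) := by
    intro y
    rw [← neg_sub 1 y, neg_eq_neg_one_mul, map_mul]
    ring
  rw [sum_congr rfl (fun y _ => h3 y), ← mul_sum]
  have h4 := jacobiSum_nontrivial_inv (quadraticChar_ne_one h2)
  rw [(quadraticChar_isQuadratic (F := K)).inv] at h4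
  unfold jacobiSum at h4
  rw [h4]
  have h5 : quadraticChar K (-1) * quadraticChar K (-1) = 1 := by
    have := quadraticChar_sq_one (F := K) (a := -1) (neg_ne_zero.mpr one_ne_zero)
    rwa [sq] at this
  linear_combination -h5

theorem paley_com (hq : Fintype.card K % 4 = 3) {u v : K} (huv : u ≠ v) :
    4 * com (paley K) u v + 3 = Fintype.card K := by
  have h2 : ringChar K ≠ 2 := by
    intro h
    have := FiniteField.even_card_of_char_two h
    omega
  have h1 : ∑ x : K, (1 + quadraticChar K (x - u)) * (1 + quadraticChar K (x - v)) =
      (Fintype.card K : ℤ) - 1 := by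
    have h3 : ∀ x : K, (1 + quadraticChar K (x - u)) * (1 + quadraticChar K (x - v)) =
        1 + quadraticChar K (x - u) + quadraticChar K (x - v)
          + quadraticChar K (x - u) * quadraticChar K (x - v) := by
      intro x; ring
    rw [sum_congr rfl (fun x _ => h3 x), sum_add_distrib, sum_add_distrib, sum_add_distrib,
      sum_shift h2, sum_shift h2, sum_prod h2 huv]
    simp
    ring
  have h4 : ∀ x : K, (1 + quadraticChar K (x - u)) * (1 + quadraticChar K (x - v)) =
      4 * (A (paley K) u x * A (paley K) v x) + (if x = u then 1 + quadraticChar K (u - v) else 0)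
        + (if x = v then 1 + quadraticChar K (v - u) else 0) := by
    intro x
    have hA : ∀ w y : K, y ≠ w → 1 + quadraticChar K (y - w) = 2 * A (paley K) w y := by
      intro w y hyw
      unfold A paley
      rcases quadraticChar_dichotomy (sub_ne_zero.mpr hyw) with h | h
      · rw [h]; norm_num
      · rw [h]; norm_num
    by_cases hxu : x = u
    · subst hxu
      rw [if_pos rfl, if_neg huv, A_self (paley_tournament K hq), sub_self, quadraticChar_zero]
      ring
    · by_cases hxv : x = v
      · subst hxv
        rw [if_neg hxu, if_pos rfl, A_self (paley_tournament K hq), sub_self, quadraticChar_zero]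
        ring
      · rw [if_neg hxu, if_neg hxv, hA u x hxu, hA v x hxv]
        ring
  rw [sum_congr rfl (fun x _ => h4 x), sum_add_distrib, sum_add_distrib, ← mul_sum, ← com_eq,
    sum_ite_eq' univ u (fun _ => 1 + quadraticChar K (u - v)),
    sum_ite_eq' univ v (fun _ => 1 + quadraticChar K (v - u)), if_pos (mem_univ _),
    if_pos (mem_univ _), char_sub hq u v] at h1
  linarith

end Pool.Agent.Lib.MPf3446c
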