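import Pool.Agent.Lib.MP_f3446c_co.Equal

/-!
# Order `4m`: exact formula for `tr_4` through the skew matrix
-/

set_option autoImplicit false

namespace Pool.Agent.Lib.MPf3446c

open Finset Classical

variable {V : Type*}

/-- the skew matrix of a tournament -/
noncomputable def SS (T : V → V → Prop) (u v : V) : ℤ := A T u v - A T v u

theorem SS_self (T : V → V → Prop) (u : V) : SS T u u = 0 := sub_self _

theorem SS_skew (T : V → V → Prop) (u v : V) : SS T u v = -SS T v u := by
  unfold SS
  ring

theorem SS_ne {T : V → V → Prop} (hT : IsTournament T) {u v : V} (huv : u ≠ v) :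
    SS T u v = 2 * A T u v - 1 := by
  unfold SS
  have := A_add hT huv
  linarith

theorem SS_sq {T : V → V → Prop} (hT : IsTournament T) {u v : V} (huv : u ≠ v) :
    SS T u v * SS T u v = 1 := by
  rw [SS_ne hT huv]
  have := A_sq T u v
  linear_combination 4 * this

variable [Fintype V]

/-- score -/
noncomputable def sc (T : V → V → Prop) (u : V) : ℤ := 2 * deg T u - (Fintype.card V - 1)

/-- the matrix `S Sᵀ` -/
noncomputable def MM (T : V → V → Prop) (u w : V) : ℤ := ∑ x, SS T u x * SS T w x

theorem SS_sum {T : V → V → Prop} (hT : IsTournament T) (u : V) : ∑ v, SS T u v = sc T u := by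
  unfold SS sc
  rw [sum_sub_distrib, ← deg_eq, indeg_eq hT]
  ring

theorem SS_sum' {T : V → V → Prop} (hT : IsTournament T) (u : V) : ∑ v, SS T v u = -sc T u := by
  rw [← SS_sum hT, ← sum_neg_distrib]
  exact sum_congr rfl fun v _ => SS_skew T v u

theorem MM_comm (T : V → V → Prop) (u w : V) : MM T u w = MM T w u :=
  sum_congr rfl fun _ _ => mul_comm _ _

theorem MM_self {T : V → V → Prop} (hT : IsTournament T) (u : V) :
    MM T u u = Fintype.card V - 1 := by
  unfold MM
  have h : ∀ x, SS T u x * SS T u x = 1 - (if x = u then 1 else 0) := by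
    intro x
    by_cases h : x = u
    · subst h
      rw [if_pos rfl, SS_self]
      rfl
    · rw [if_neg h, SS_sq hT (Ne.symm h)]
      rfl
  rw [sum_congr rfl (fun x _ => h x), sum_sub_distrib, sum_ite_eq' univ u (fun _ => (1 : ℤ)),
    if_pos (mem_univ _), sum_const, card_univ, nsmul_eq_mul, mul_one]

theorem MM_ne {T : V → V → Prop} (hT : IsTournament T) {u w : V} (huw : u ≠ w) :
    MM T u w = 4 * com T u w - sc T u - sc T w - Fintype.card V + 2 := by
  unfold MM
  have h : ∀ x, SS T u x * SS T w x = 4 * (A T u x * A T w x) - 2 * A T u x - 2 * A T w x + 1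
      - (if x = u then 1 - 2 * A T w u else 0) - (if x = w then 1 - 2 * A T u w else 0) := by
    intro x
    by_cases h1 : x = u
    · subst h1
      rw [if_pos rfl, if_neg huw, SS_self, A_self hT]
      ring
    · by_cases h2 : x = w
      · subst h2
        rw [if_pos rfl, if_neg h1, SS_self, A_self hT]
        ring
      · rw [if_neg h1, if_neg h2, SS_ne hT (Ne.symm h1), SS_ne hT (Ne.symm h2)]
        ring
  rw [sum_congr rfl (fun x _ => h x), sum_sub_distrib, sum_sub_distrib, sum_add_distrib,
    sum_sub_distrib, sum_sub_distrib, ← mul_sum, ← mul_sum, ← mul_sum, ← com_eq, ← deg_eq,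
    ← deg_eq, sum_ite_eq' univ u (fun _ => 1 - 2 * A T w u),
    sum_ite_eq' univ w (fun _ => 1 - 2 * A T u w), if_pos (mem_univ _), if_pos (mem_univ _),
    sum_const, card_univ, nsmul_eq_mul, mul_one]
  have := A_add hT huw
  unfold sc
  linarith

theorem sum_sc {T : V → V → Prop} (hT : IsTournament T) : ∑ u, sc T u = 0 := by
  have h := sum_deg' hT
  unfold sc
  rw [sum_sub_distrib, ← mul_sum, h, sum_const, card_univ, nsmul_eq_mul]
  ring

theorem sum_MM (T : V → V → Prop) (g : V → ℤ) :
    ∑ u, ∑ w, MM T u w * (g u * g w) = ∑ x, (∑ u, SS T u x * g u) ^ 2 := by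
  unfold MM
  have h : ∀ u w, (∑ x, SS T u x * SS T w x) * (g u * g w) =
      ∑ x, (SS T u x * g u) * (SS T w x * g w) := by
    intro u w
    rw [sum_mul]
    exact sum_congr rfl fun x _ => by ring
  rw [sum_congr rfl (fun u _ => sum_congr rfl (fun w _ => h u w))]
  rw [sum_congr rfl (fun u _ => sum_comm), sum_comm]
  apply sum_congr rfl
  intro x _
  rw [sq, sum_mul_sum]

/-- sum over ordered pairs of different vertices -/
noncomputable def off (f : V → V → ℤ) : ℤ := ∑ u, ∑ w, if w = u then 0 else f u w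

theorem off_eq (f : V → V → ℤ) : off f = ∑ u, ∑ w, f u w - ∑ u, f u u := by
  unfold off
  rw [← sum_sub_distrib]
  apply sum_congr rfl
  intro u _
  have h : ∀ w, (if w = u then 0 else f u w) = f u w - (if w = u then f u u else 0) := by
    intro w
    by_cases h : w = u
    · subst h
      simp
    · simp [h]
  rw [sum_congr rfl (fun w _ => h w), sum_sub_distrib, sum_ite_eq' univ u (fun _ => f u u),
    if_pos (mem_univ _)]

theorem off_congr {f g : V → V → ℤ} (h : ∀ u w, u ≠ w → f u w = g u w) : off f = off g := by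
  unfold off
  apply sum_congr rfl
  intro u _
  apply sum_congr rfl
  intro w _
  by_cases hw : w = u
  · rw [if_pos hw, if_pos hw]
  · rw [if_neg hw, if_neg hw, h u w (Ne.symm hw)]

theorem off_le {f g : V → V → ℤ} (h : ∀ u w, u ≠ w → f u w ≤ g u w) : off f ≤ off g := by
  unfold off
  apply sum_le_sum
  intro u _
  apply sum_le_sum
  intro w _
  by_cases hw : w = u
  · rw [if_pos hw, if_pos hw]
  · rw [if_neg hw, if_neg hw]
    exact h u w (Ne.symm hw)

theorem E2_off {T : V → V → Prop} (hT : IsTournament T) {m : ℕ} (hn : Fintype.card V = 4 * m) :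
    32 * E2 T (m - 1) = off (fun u w => (sc T u + sc T w + MM T u w) ^ 2 - 4) := by
  have h1 : 2 * E2 T (m - 1) =
      off (fun v w => (com T v w - (m - 1)) * (com T v w - (m - 1) - 1)) := by
    rw [off_eq, ← sum_arcs_symm hT
      (fun v w => (com T v w - (m - 1)) * (com T v w - (m - 1) - 1))
      (fun u v => by rw [com_comm])]
    rfl
  have h2 : 32 * E2 T (m - 1) =
      off (fun v w => 16 * ((com T v w - (m - 1)) * (com T v w - (m - 1) - 1))) := by
    have : 32 * E2 T (m - 1) = 16 * (2 * E2 T (m - 1)) := by ring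
    rw [this, h1]
    unfold off
    rw [mul_sum]
    apply sum_congr rfl
    intro u _
    rw [mul_sum]
    apply sum_congr rfl
    intro w _
    split_ifs
    · ring
    · rfl
  rw [h2]
  apply off_congr
  intro u w huw
  have h3 := MM_ne hT huw
  rw [hn] at h3
  push_cast at h3
  have h4 : sc T u + sc T w + MM T u w = 4 * com T u w - 4 * m + 2 := by linarith
  rw [h4]
  ring

theorem sc_flip {T : V → V → Prop} (hT : IsTournament T) (u : V) :
    sc (fun a b => T b a) u = -sc T u := by
  rw [← SS_sum hT, ← SS_sum hT.flip, ← sum_neg_distrib]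
  apply sum_congr rfl
  intro v _
  exact SS_skew T v u

theorem MM_flip (T : V → V → Prop) (u w : V) : MM (fun a b => T b a) u w = MM T u w := by
  unfold MM
  apply sum_congr rfl
  intro x _
  have h : ∀ a, SS (fun a b => T b a) a x = -SS T a x := fun a => SS_skew T x a
  rw [h, h]
  ring

/-- `∑ s_u²` -/
noncomputable def PP (T : V → V → Prop) : ℤ := ∑ u, sc T u ^ 2

theorem PP_flip {T : V → V → Prop} (hT : IsTournament T) : PP (fun a b => T b a) = PP T := by
  unfold PP
  apply sum_congr rfl
  intro u _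
  rw [sc_flip hT]
  ring

/-- the sum of the squares of the off-diagonal entries of `S Sᵀ` -/
noncomputable def QQ (T : V → V → Prop) : ℤ := off (fun u w => MM T u w ^ 2)

theorem E1_PP (T : V → V → Prop) {m : ℕ} (hn : Fintype.card V = 4 * m) :
    4 * E1 T (2 * m - 1) = PP T - 4 * m := by
  unfold E1 PP sc
  rw [hn, mul_sum]
  have : (4 * m : ℤ) = ∑ _u : V, (1 : ℤ) := by
    rw [sum_const, card_univ, nsmul_eq_mul, mul_one, hn]
    push_cast
    rfl
  rw [this, ← sum_sub_distrib]
  apply sum_congr rfl
  intro u _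
  push_cast
  ring

theorem off_sc {T : V → V → Prop} (hT : IsTournament T) :
    off (fun u w => (sc T u + sc T w) ^ 2) = (2 * Fintype.card V - 4) * PP T := by
  rw [off_eq]
  have h0 := sum_sc hT
  have h1 : ∑ u, ∑ w, (sc T u + sc T w) ^ 2 = 2 * Fintype.card V * PP T := by
    have h2 : ∀ u w, (sc T u + sc T w) ^ 2 = sc T u ^ 2 + sc T w ^ 2 + 2 * sc T u * sc T w := by
      intro u w; ring
    rw [sum_congr rfl (fun u _ => sum_congr rfl (fun w _ => h2 u w))]
    have h3 : ∀ u, ∑ w, (sc T u ^ 2 + sc T w ^ 2 + 2 * sc T u * sc T w) =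
        Fintype.card V * sc T u ^ 2 + PP T := by
      intro u
      rw [sum_add_distrib, sum_add_distrib, ← mul_sum, h0, sum_const, card_univ, nsmul_eq_mul]
      unfold PP
      ring
    rw [sum_congr rfl (fun u _ => h3 u), sum_add_distrib, ← mul_sum, sum_const, card_univ,
      nsmul_eq_mul]
    unfold PP
    ring
  have h2 : ∑ u, (sc T u + sc T u) ^ 2 = 4 * PP T := by
    unfold PP
    rw [mul_sum]
    exact sum_congr rfl fun u _ => by ring
  rw [h1, h2]
  ring

/-- the exact formula, order `4 m` -/
theorem exact {T : V → V → Prop} (hT : IsTournament T) {m : ℕ} (hn : Fintype.card V = 4 * m) :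
    64 * ((tr T 4 : ℚ) - L (4 * m)) =
      QQ T - 32 * m ^ 2 + (16 * m - 12) * ((PP T : ℤ) - 4 * m : ℚ) := by
  have m1 := main0 hT hn
  have m2 := main0 hT.flip hn
  rw [tr_flip] at m2
  have e1 := E1_PP T hn
  have e2 := E1_PP (fun a b => T b a) hn
  rw [PP_flip hT] at e2
  have f1 := E2_off hT hn
  have f2 := E2_off hT.flip hn
  have f3 : 32 * E2 T (m - 1) + 32 * E2 (fun a b => T b a) (m - 1) =
      2 * QQ T + 2 * ((2 * (4 * m) - 4) * PP T) - 8 * (4 * m * (4 * m - 1)) := by
    have g1 : off (fun _ _ : V => (1 : ℤ)) = 4 * m * (4 * m - 1) := by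
      rw [off_eq]
      simp only [sum_const, card_univ, nsmul_eq_mul, mul_one, hn]
      push_cast
      ring
    have g2 := off_sc hT
    rw [hn] at g2
    push_cast at g2
    rw [f1, f2, ← g2, ← g1]
    unfold QQ off
    rw [mul_sum, mul_sum, mul_sum, ← sum_add_distrib, ← sum_add_distrib, ← sum_sub_distrib]
    apply sum_congr rfl
    intro u _
    rw [mul_sum, mul_sum, mul_sum, ← sum_add_distrib, ← sum_add_distrib, ← sum_sub_distrib]
    apply sum_congr rfl
    intro w _
    beta_reduce
    rw [sc_flip hT, sc_flip hT, MM_flip]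
    split_ifs
    · ring
    · ring
  have f3' := congrArg (Int.cast : ℤ → ℚ) f3
  have e1' := congrArg (Int.cast : ℤ → ℚ) e1
  have e2' := congrArg (Int.cast : ℤ → ℚ) e2
  push_cast at f3' e1' e2' m1 m2
  linear_combination 16 * m1 + 16 * m2 + f3' / 2 + 4 * (m - 1) * e1' + 4 * (m - 1) * e2'

end Pool.Agent.Lib.MPf3446c
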