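import Pool.Agent.Lib.MP_f3446c_co.QuadA

/-!
# Order `4m`: integrality and the spectral inequality
-/

set_option autoImplicit false

namespace Pool.Agent.Lib.MPf3446c

open Finset Classical

variable {V : Type*} [Fintype V]

/-- the sign congruent to the score modulo 4 -/
noncomputable def zz (T : V → V → Prop) (u : V) : ℤ := if sc T u % 4 = 1 then 1 else -1

theorem zz_sq (T : V → V → Prop) (u : V) : zz T u * zz T u = 1 := by
  unfold zz
  split_ifs <;> rfl

theorem zz_or (T : V → V → Prop) (u : V) : zz T u = 1 ∨ zz T u = -1 := by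
  unfold zz
  split_ifs
  · left; rfl
  · right; rfl

theorem zz_mod (T : V → V → Prop) {m : ℕ} (hn : Fintype.card V = 4 * m) (u : V) :
    ∃ k : ℤ, sc T u = zz T u + 4 * k := by
  have h : sc T u % 2 = 1 := by
    unfold sc
    rw [hn]
    push_cast
    omega
  unfold zz
  split_ifs with h1
  · exact ⟨sc T u / 4, by omega⟩
  · exact ⟨(sc T u + 1) / 4, by omega⟩

theorem zz_dist (T : V → V → Prop) {m : ℕ} (hn : Fintype.card V = 4 * m) (u : V) :
    2 * (zz T u - sc T u) ≤ sc T u ^ 2 - 1 ∧ 2 * (sc T u - zz T u) ≤ sc T u ^ 2 - 1 := by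
  obtain ⟨k, hk⟩ := zz_mod T hn u
  rw [hk]
  have hk2 : k ≤ k * k := by
    rcases le_or_gt k 0 with h | h
    · exact le_trans h (mul_self_nonneg k)
    · nlinarith
  have hk3 : -k ≤ k * k := by
    rcases le_or_gt k 0 with h | h
    · nlinarith
    · exact le_trans (by linarith) (mul_self_nonneg k)
  rcases zz_or T u with h | h <;> rw [h] <;> constructor <;> nlinarith

theorem MM_mod {T : V → V → Prop} (hT : IsTournament T) {m : ℕ} (hn : Fintype.card V = 4 * m)
    {u w : V} (huw : u ≠ w) :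
    2 * (1 - zz T u * zz T w) - 2 * (1 + zz T u * zz T w) * MM T u w ≤ MM T u w ^ 2 := by
  obtain ⟨k, hk⟩ := zz_mod T hn u
  obtain ⟨l, hl⟩ := zz_mod T hn w
  have h := MM_ne hT huw
  rw [hk, hl, hn] at h
  push_cast at h
  have key4 : ∀ j : ℤ, 0 ≤ (4 * j) * (4 * j + 4) := by
    intro j
    have := quad_nonneg (-j)
    nlinarith
  have key2 : ∀ j : ℤ, 4 ≤ (4 * j + 2) ^ 2 := by
    intro j
    have := quad_nonneg (-j)
    nlinarith
  rcases zz_or T u with h1 | h1 <;> rcases zz_or T w with h2 | h2 <;> rw [h1, h2] at h ⊢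
  · have h3 : MM T u w = 4 * (com T u w - k - l - m) := by linarith
    rw [h3]
    have := key4 (com T u w - k - l - m)
    nlinarith
  · have h3 : MM T u w = 4 * (com T u w - k - l - m) + 2 := by linarith
    rw [h3]
    have := key2 (com T u w - k - l - m)
    nlinarith
  · have h3 : MM T u w = 4 * (com T u w - k - l - m) + 2 := by linarith
    rw [h3]
    have := key2 (com T u w - k - l - m)
    nlinarith
  · have h3 : MM T u w = 4 * (com T u w - k - l - m + 1) := by linarith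
    rw [h3]
    have := key4 (com T u w - k - l - m + 1)
    nlinarith

/-- `1ᵀ N 1` -/
noncomputable def R1 (T : V → V → Prop) : ℤ := off (fun u w => MM T u w)

/-- `zᵀ N z` -/
noncomputable def R2 (T : V → V → Prop) : ℤ := off (fun u w => MM T u w * (zz T u * zz T w))

theorem bound_one {T : V → V → Prop} (hT : IsTournament T) {m : ℕ} (hn : Fintype.card V = 4 * m) :
    32 * (m : ℤ) ^ 2 - 4 * m * (PP T - 4 * m) - 2 * (R1 T + R2 T) ≤ QQ T := by
  have h1 : off (fun u w => 2 * (1 - zz T u * zz T w) - 2 * (1 + zz T u * zz T w) * MM T u w)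
      ≤ QQ T := off_le fun u w huw => MM_mod hT hn huw
  have h2 : off (fun u w => 2 * (1 - zz T u * zz T w) - 2 * (1 + zz T u * zz T w) * MM T u w) =
      2 * off (fun _ _ : V => (1 : ℤ)) - 2 * off (fun u w => zz T u * zz T w)
        - 2 * R1 T - 2 * R2 T := by
    unfold R1 R2 off
    rw [mul_sum, mul_sum, mul_sum, mul_sum, ← sum_sub_distrib, ← sum_sub_distrib,
      ← sum_sub_distrib]
    apply sum_congr rfl
    intro u _
    rw [mul_sum, mul_sum, mul_sum, mul_sum, ← sum_sub_distrib, ← sum_sub_distrib,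
      ← sum_sub_distrib]
    apply sum_congr rfl
    intro w _
    split_ifs
    · ring
    · ring
  have h3 : off (fun _ _ : V => (1 : ℤ)) = 4 * m * (4 * m - 1) := by
    rw [off_eq]
    simp only [sum_const, card_univ, nsmul_eq_mul, mul_one, hn]
    push_cast
    ring
  have h4 : off (fun u w => zz T u * zz T w) = (∑ u, zz T u) ^ 2 - 4 * m := by
    rw [off_eq, sum_congr rfl (fun u _ => zz_sq T u), sq, sum_mul_sum]
    simp only [sum_const, card_univ, nsmul_eq_mul, mul_one, hn]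
    push_cast
    ring
  have hP : PP T - 4 * m = ∑ u, (sc T u ^ 2 - 1) := by
    unfold PP
    rw [sum_sub_distrib, sum_const, card_univ, nsmul_eq_mul, mul_one, hn]
    push_cast
    ring
  have h0 := sum_sc hT
  have h5 : 2 * ∑ u, zz T u ≤ PP T - 4 * m := by
    rw [hP]
    have : 2 * ∑ u, zz T u = ∑ u, 2 * (zz T u - sc T u) := by
      rw [← mul_sum, sum_sub_distrib, h0, sub_zero]
    rw [this]
    exact sum_le_sum fun u _ => (zz_dist T hn u).1
  have h6 : -(2 * ∑ u, zz T u) ≤ PP T - 4 * m := by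
    rw [hP]
    have : -(2 * ∑ u, zz T u) = ∑ u, 2 * (sc T u - zz T u) := by
      rw [← mul_sum, sum_sub_distrib, h0]
      ring
    rw [this]
    exact sum_le_sum fun u _ => (zz_dist T hn u).2
  have h7 : ∑ u, zz T u ≤ 4 * m := by
    have : (4 * m : ℤ) = ∑ _u : V, (1 : ℤ) := by
      rw [sum_const, card_univ, nsmul_eq_mul, mul_one, hn]
      push_cast
      rfl
    rw [this]
    exact sum_le_sum fun u _ => by rcases zz_or T u with h | h <;> rw [h] <;> norm_num
  have h8 : -(4 * m : ℤ) ≤ ∑ u, zz T u := by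
    have : -(4 * m : ℤ) = ∑ _u : V, (-1 : ℤ) := by
      rw [sum_const, card_univ, nsmul_eq_mul, hn]
      push_cast
      ring
    rw [this]
    exact sum_le_sum fun u _ => by rcases zz_or T u with h | h <;> rw [h] <;> norm_num
  have h9 : 2 * (∑ u, zz T u) ^ 2 ≤ 4 * m * (PP T - 4 * m) := by
    set Z := ∑ u, zz T u
    rcases le_or_gt 0 Z with h | h
    · nlinarith
    · nlinarith
  rw [h2, h3, h4] at h1
  nlinarith

/-! ### the spectral inequality -/

/-- quadratic form -/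
noncomputable def qf (N : V → V → ℝ) (g : V → ℝ) : ℝ := ∑ u, ∑ w, N u w * (g u * g w)

/-- scalar product -/
noncomputable def dp (g h : V → ℝ) : ℝ := ∑ u, g u * h u

theorem dp_comm (g h : V → ℝ) : dp g h = dp h g := sum_congr rfl fun _ _ => mul_comm _ _

theorem sum_rank (g h : V → ℝ) :
    ∑ u, ∑ w, (g u * g w) * (h u * h w) = dp g h ^ 2 := by
  unfold dp
  rw [sq, sum_mul_sum]
  apply sum_congr rfl
  intro u _
  apply sum_congr rfl
  intro w _
  ring

theorem spectral (N : V → V → ℝ) (z p o y : V → ℝ) (hz : 0 < dp z z) (hp : 0 < dp p p)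
    (ho : 0 < dp o o) (hy : 0 < dp y y) (hzp : dp z p = 0) (hoy : dp o y = 0) {a b : ℝ}
    (ha : 0 ≤ a) (hb : b ≤ 0) (h1 : a * dp z z ≤ qf N z) (h2 : a * dp p p ≤ qf N p)
    (h3 : qf N o ≤ b * dp o o) (h4 : qf N y ≤ b * dp y y) :
    2 * a ^ 2 + 2 * b ^ 2 ≤ ∑ u, ∑ w, N u w ^ 2 := by
  set cz := a / dp z z with hcz
  set cp := a / dp p p with hcp
  set co := b / dp o o with hco
  set cy := b / dp y y with hcy
  have h0 : 0 ≤ ∑ u, ∑ w, (N u w - (cz * (z u * z w) + cp * (p u * p w) + co * (o u * o w)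
      + cy * (y u * y w))) ^ 2 := sum_nonneg fun u _ => sum_nonneg fun w _ => sq_nonneg _
  have h5 : ∑ u, ∑ w, (N u w - (cz * (z u * z w) + cp * (p u * p w) + co * (o u * o w)
      + cy * (y u * y w))) ^ 2 = ∑ u, ∑ w, N u w ^ 2
      - 2 * (cz * qf N z + cp * qf N p + co * qf N o + cy * qf N y)
      + (cz ^ 2 * dp z z ^ 2 + cp ^ 2 * dp p p ^ 2 + co ^ 2 * dp o o ^ 2 + cy ^ 2 * dp y y ^ 2
        + 2 * cz * cp * dp z p ^ 2 + 2 * co * cy * dp o y ^ 2 + 2 * cz * co * dp z o ^ 2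
        + 2 * cz * cy * dp z y ^ 2 + 2 * cp * co * dp p o ^ 2 + 2 * cp * cy * dp p y ^ 2) := by
    simp only [← sum_rank, qf, mul_sum, ← sum_add_distrib, ← sum_sub_distrib]
    apply sum_congr rfl
    intro u _
    apply sum_congr rfl
    intro w _
    ring
  rw [h5, hzp, hoy] at h0
  have e1 : cz * dp z z = a := div_mul_cancel₀ _ hz.ne'
  have e2 : cp * dp p p = a := div_mul_cancel₀ _ hp.ne'
  have e3 : co * dp o o = b := div_mul_cancel₀ _ ho.ne'
  have e4 : cy * dp y y = b := div_mul_cancel₀ _ hy.ne'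
  have hcz0 : 0 ≤ cz := div_nonneg ha hz.le
  have hcp0 : 0 ≤ cp := div_nonneg ha hp.le
  have hco0 : co ≤ 0 := div_nonpos_of_nonpos_of_nonneg hb ho.le
  have hcy0 : cy ≤ 0 := div_nonpos_of_nonpos_of_nonneg hb hy.le
  have f1 : a ^ 2 ≤ cz * qf N z := by
    have h := mul_le_mul_of_nonneg_left h1 hcz0
    rwa [mul_left_comm, e1, ← sq] at h
  have f2 : a ^ 2 ≤ cp * qf N p := by
    have h := mul_le_mul_of_nonneg_left h2 hcp0
    rwa [mul_left_comm, e2, ← sq] at h
  have f3 : b ^ 2 ≤ co * qf N o := by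
    have h := mul_le_mul_of_nonpos_left h3 hco0
    rwa [mul_left_comm, e3, ← sq] at h
  have f4 : b ^ 2 ≤ cy * qf N y := by
    have h := mul_le_mul_of_nonpos_left h4 hcy0
    rwa [mul_left_comm, e4, ← sq] at h
  have g1 : cz ^ 2 * dp z z ^ 2 = a ^ 2 := by rw [← e1]; ring
  have g2 : cp ^ 2 * dp p p ^ 2 = a ^ 2 := by rw [← e2]; ring
  have g3 : co ^ 2 * dp o o ^ 2 = b ^ 2 := by rw [← e3]; ring
  have g4 : cy ^ 2 * dp y y ^ 2 = b ^ 2 := by rw [← e4]; ring
  have k1 : cz * co * dp z o ^ 2 ≤ 0 :=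
    mul_nonpos_of_nonpos_of_nonneg (mul_nonpos_of_nonneg_of_nonpos hcz0 hco0) (sq_nonneg _)
  have k2 : cz * cy * dp z y ^ 2 ≤ 0 :=
    mul_nonpos_of_nonpos_of_nonneg (mul_nonpos_of_nonneg_of_nonpos hcz0 hcy0) (sq_nonneg _)
  have k3 : cp * co * dp p o ^ 2 ≤ 0 :=
    mul_nonpos_of_nonpos_of_nonneg (mul_nonpos_of_nonneg_of_nonpos hcp0 hco0) (sq_nonneg _)
  have k4 : cp * cy * dp p y ^ 2 ≤ 0 :=
    mul_nonpos_of_nonpos_of_nonneg (mul_nonpos_of_nonneg_of_nonpos hcp0 hcy0) (sq_nonneg _)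
  rw [g1, g2, g3, g4] at h0
  linarith

end Pool.Agent.Lib.MPf3446c
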