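import Pool.Agent.Lib.MP_f3446c_co.QuadB

/-!
# Order `4m`: the quadratic lower bound for the excess
-/

set_option autoImplicit false

namespace Pool.Agent.Lib.MPf3446c

open Finset Classical

variable {V : Type*} [Fintype V]

/-- the skew matrix applied to a vector -/
noncomputable def Sv (T : V → V → Prop) (g : V → ℝ) (u : V) : ℝ := ∑ x, (SS T u x : ℝ) * g x

theorem Sv_skew (T : V → V → Prop) (g h : V → ℝ) : dp g (Sv T h) = -dp (Sv T g) h := by
  unfold dp Sv
  simp only [mul_sum, sum_mul]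
  rw [sum_comm, ← sum_neg_distrib]
  apply sum_congr rfl
  intro x _
  rw [← sum_neg_distrib]
  apply sum_congr rfl
  intro u _
  rw [SS_skew T u x]
  push_cast
  ring

theorem dp_Sv_self (T : V → V → Prop) (g : V → ℝ) : dp g (Sv T g) = 0 := by
  have h := Sv_skew T g g
  rw [dp_comm (Sv T g) g] at h
  linarith

/-- `S Sᵀ` without its diagonal -/
noncomputable def NN (T : V → V → Prop) (u w : V) : ℝ := if w = u then 0 else (MM T u w : ℝ)

theorem qf_NN {T : V → V → Prop} (hT : IsTournament T) (g : V → ℝ) :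
    qf (NN T) g = dp (Sv T g) (Sv T g) - ((Fintype.card V : ℝ) - 1) * dp g g := by
  have h1 : qf (NN T) g = ∑ u, ∑ w, (MM T u w : ℝ) * (g u * g w)
      - ((Fintype.card V : ℝ) - 1) * dp g g := by
    unfold qf dp
    rw [mul_sum, ← sum_sub_distrib]
    apply sum_congr rfl
    intro u _
    have h : ∀ w, NN T u w * (g u * g w) = (MM T u w : ℝ) * (g u * g w)
        - (if w = u then ((Fintype.card V : ℝ) - 1) * (g u * g u) else 0) := by
      intro w
      unfold NN
      by_cases hw : w = u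
      · subst hw
        rw [if_pos rfl, if_pos rfl, MM_self hT]
        push_cast
        ring
      · rw [if_neg hw, if_neg hw]
        ring
    rw [sum_congr rfl (fun w _ => h w), sum_sub_distrib,
      sum_ite_eq' univ u (fun _ => ((Fintype.card V : ℝ) - 1) * (g u * g u)),
      if_pos (mem_univ _)]
  have h2 : ∑ u, ∑ w, (MM T u w : ℝ) * (g u * g w) = dp (Sv T g) (Sv T g) := by
    have h3 : ∀ u w, (MM T u w : ℝ) * (g u * g w) =
        ∑ x, ((SS T u x : ℝ) * g u) * ((SS T w x : ℝ) * g w) := by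
      intro u w
      unfold MM
      push_cast
      rw [sum_mul]
      exact sum_congr rfl fun x _ => by ring
    rw [sum_congr rfl (fun u _ => sum_congr rfl (fun w _ => h3 u w)),
      sum_congr rfl (fun u _ => sum_comm), sum_comm]
    unfold dp
    apply sum_congr rfl
    intro x _
    have h4 : ∑ u, (SS T u x : ℝ) * g u = -Sv T g x := by
      unfold Sv
      rw [← sum_neg_distrib]
      apply sum_congr rfl
      intro u _
      rw [SS_skew T u x]
      push_cast
      ring
    rw [← sum_mul_sum, h4]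
    ring
  rw [h1, h2]

theorem sum_NN (T : V → V → Prop) : ∑ u, ∑ w, NN T u w ^ 2 = (QQ T : ℝ) := by
  unfold QQ off NN
  push_cast
  apply sum_congr rfl
  intro u _
  apply sum_congr rfl
  intro w _
  split_ifs
  · norm_num
  · rfl

theorem dp_sq (g h : V → ℝ) : dp g h ^ 2 ≤ dp g g * dp h h := by
  unfold dp
  have := Finset.sum_mul_sq_le_sq_mul_sq univ g h
  simpa only [sq] using this

theorem exists_inv {T : V → V → Prop} (hT : IsTournament T) {m : ℕ}
    (hn : Fintype.card V = 4 * m) : ∃ y : V → ℝ, ∀ u, Sv T y u = 1 := by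
  set B : Matrix V V ℤ := Matrix.of (SS T) with hB
  set f : ℤ →+* ZMod 2 := Int.castRingHom (ZMod 2) with hf
  have h2 : (2 : ZMod 2) = 0 := by decide
  have hcard : (Fintype.card V : ZMod 2) = 0 := by
    rw [hn]
    push_cast
    have : (4 : ZMod 2) = 0 := by decide
    rw [this, zero_mul]
  have hentry : ∀ u v, (B.map f) u v = 1 - (if v = u then 1 else 0) := by
    intro u v
    rw [Matrix.map_apply, hB, Matrix.of_apply]
    by_cases h : v = u
    · subst h
      rw [SS_self, if_pos rfl, map_zero, sub_self]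
    · rw [if_neg h, SS_ne hT (Ne.symm h), map_sub, map_mul, map_one]
      have : f 2 = 0 := by
        rw [hf]
        exact h2
      rw [this, zero_mul, sub_zero, zero_sub]
      decide
  have hone : (B.map f) * (B.map f) = 1 := by
    ext u v
    rw [Matrix.mul_apply]
    have h : ∀ x, (B.map f) u x * (B.map f) x v = 1 - (if x = u then 1 else 0)
        - (if x = v then 1 else 0) + (if x = u then (if v = u then 1 else 0) else 0) := by
      intro x
      rw [hentry, hentry]
      by_cases h1 : x = u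
      · subst h1
        by_cases h3 : v = x
        · subst h3
          simp
          decide
        · rw [if_pos rfl, if_neg h3, if_neg (Ne.symm h3), if_pos rfl]
          ring
      · by_cases h3 : x = v
        · subst h3
          rw [if_neg h1, if_pos rfl, if_neg h1]
          ring
        · rw [if_neg h1, if_neg h3, if_neg (Ne.symm h3), if_neg h1]
          ring
    rw [sum_congr rfl (fun x _ => h x), sum_add_distrib, sum_sub_distrib, sum_sub_distrib,
      sum_const, card_univ, nsmul_eq_mul, mul_one, hcard,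
      sum_ite_eq' univ u (fun _ => (1 : ZMod 2)), sum_ite_eq' univ v (fun _ => (1 : ZMod 2)),
      sum_ite_eq' univ u (fun _ => if v = u then (1 : ZMod 2) else 0), if_pos (mem_univ _),
      if_pos (mem_univ _), if_pos (mem_univ _), Matrix.one_apply]
    by_cases h3 : v = u
    · subst h3
      rw [if_pos rfl]
      decide
    · rw [if_neg h3, if_neg (Ne.symm h3)]
      decide
  have hdet : B.det ≠ 0 := by
    intro h
    have h3 : (B.map f).det = f B.det := (RingHom.map_det f B).symm
    have h4 : (B.map f).det * (B.map f).det = 1 := by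
      rw [← Matrix.det_mul, hone, Matrix.det_one]
    rw [h3, h, map_zero, mul_zero] at h4
    exact zero_ne_one h4
  set C : Matrix V V ℝ := B.map (Int.castRingHom ℝ) with hC
  have hCdet : IsUnit C.det := by
    rw [isUnit_iff_ne_zero, hC]
    have h3 : (B.map (Int.castRingHom ℝ)).det = Int.castRingHom ℝ B.det :=
      (RingHom.map_det (Int.castRingHom ℝ) B).symm
    rw [h3]
    intro h
    apply hdet
    have h4 : ((B.det : ℤ) : ℝ) = 0 := h
    exact_mod_cast h4
  refine ⟨C⁻¹.mulVec (fun _ => 1), fun u => ?_⟩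
  have h5 : C.mulVec (C⁻¹.mulVec (fun _ => 1)) = fun _ => 1 := by
    rw [Matrix.mulVec_mulVec, Matrix.mul_nonsing_inv C hCdet, Matrix.one_mulVec]
  exact congrFun h5 u

theorem bound_two {T : V → V → Prop} (hT : IsTournament T) {m : ℕ} (hm : 1 ≤ m)
    (hn : Fintype.card V = 4 * m) (hR2 : 0 ≤ R2 T) (hR1 : R1 T ≤ 0) :
    2 * ((R2 T : ℝ) / (4 * m)) ^ 2 + 2 * ((R1 T : ℝ) / (4 * m)) ^ 2 ≤ QQ T := by
  have hm' : (1 : ℝ) ≤ m := by exact_mod_cast hm
  have hn' : (Fintype.card V : ℝ) = 4 * m := by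
    rw [hn]
    push_cast
    rfl
  obtain ⟨y, hy⟩ := exists_inv hT hn
  set z : V → ℝ := fun u => (zz T u : ℝ) with hz
  set o : V → ℝ := fun _ => 1 with ho
  have hyo : Sv T y = o := funext hy
  have hzz : dp z z = 4 * m := by
    unfold dp
    have : ∀ u, z u * z u = 1 := by
      intro u
      change (zz T u : ℝ) * (zz T u : ℝ) = 1
      exact_mod_cast zz_sq T u
    rw [sum_congr rfl (fun u _ => this u), sum_const, card_univ, nsmul_eq_mul, mul_one, hn']
  have hoo : dp o o = 4 * m := by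
    unfold dp
    rw [ho]
    simp only [mul_one, sum_const, card_univ, nsmul_eq_mul, hn']
  have hqz : qf (NN T) z = R2 T := by
    unfold qf NN R2 off
    push_cast
    apply sum_congr rfl
    intro u _
    apply sum_congr rfl
    intro w _
    split_ifs
    · ring
    · rfl
  have hqo : qf (NN T) o = R1 T := by
    unfold qf NN R1 off
    push_cast
    apply sum_congr rfl
    intro u _
    apply sum_congr rfl
    intro w _
    rw [ho]
    split_ifs
    · ring
    · ring
  set p := Sv T z with hp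
  have hR2' : (0 : ℝ) ≤ R2 T := by exact_mod_cast hR2
  have hR1' : (R1 T : ℝ) ≤ 0 := by exact_mod_cast hR1
  set a := (R2 T : ℝ) / (4 * m) with ha
  set b := (R1 T : ℝ) / (4 * m) with hb
  have h4m : (0 : ℝ) < 4 * m := by linarith
  have ha4 : a * (4 * m) = R2 T := div_mul_cancel₀ _ h4m.ne'
  have hb4 : b * (4 * m) = R1 T := div_mul_cancel₀ _ h4m.ne'
  have ha0 : 0 ≤ a := div_nonneg hR2' h4m.le
  have hb0 : b ≤ 0 := div_nonpos_of_nonpos_of_nonneg hR1' h4m.le
  have hpp : dp p p = (a + (4 * m - 1)) * (4 * m) := by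
    have h := qf_NN hT z
    rw [hqz, hzz, hn'] at h
    linarith
  have hppos : 0 < dp p p := by
    rw [hpp]
    exact mul_pos (by linarith) h4m
  have hyy0 : 0 < dp y y := by
    rcases (sum_nonneg fun u _ => mul_self_nonneg (y u) : (0 : ℝ) ≤ dp y y).lt_or_eq with h | h
    · exact h
    · exfalso
      have h1 : ∀ u, y u = 0 := by
        intro u
        have h2 := (sum_eq_zero_iff_of_nonneg (fun u _ => mul_self_nonneg (y u))).1 h.symm u
          (mem_univ u)
        exact mul_self_eq_zero.1 h2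
      have h3 : Nonempty V := by
        rw [← Fintype.card_pos_iff, hn]
        omega
      obtain ⟨u⟩ := h3
      have h4 := hy u
      unfold Sv at h4
      rw [sum_congr rfl (fun x _ => by rw [h1 x, mul_zero]), sum_const_zero] at h4
      exact zero_ne_one h4
  have hSo : dp (Sv T o) (Sv T o) = (b + (4 * m - 1)) * (4 * m) := by
    have h := qf_NN hT o
    rw [hqo, hoo, hn'] at h
    linarith
  rw [← sum_NN]
  refine spectral (NN T) z p o y (by rw [hzz]; exact h4m) hppos (by rw [hoo]; exact h4m) hyy0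
    (dp_Sv_self T z) ?_ ha0 hb0 ?_ ?_ ?_ ?_
  · rw [← hyo, dp_comm]
    exact dp_Sv_self T y
  · rw [hzz, hqz, ha4]
  · rw [qf_NN hT, hn']
    have h1 : dp p p ^ 2 ≤ dp (Sv T p) (Sv T p) * (4 * m) := by
      have h2 : dp p p = -dp (Sv T p) z := Sv_skew T p z
      rw [h2, neg_sq, ← hzz]
      exact dp_sq _ _
    have h3 : dp p p * (a + (4 * m - 1)) ≤ dp (Sv T p) (Sv T p) := by
      have h4 : dp p p * (a + (4 * m - 1)) * (4 * m) ≤ dp (Sv T p) (Sv T p) * (4 * m) := by
        calc dp p p * (a + (4 * m - 1)) * (4 * m) = dp p p * dp p p := by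
              rw [mul_assoc, ← hpp]
          _ = dp p p ^ 2 := (sq _).symm
          _ ≤ _ := h1
      exact le_of_mul_le_mul_right h4 h4m
    linarith
  · rw [hoo, hqo, hb4]
  · rw [qf_NN hT, hn', hyo, hoo]
    have h1 : (4 * m : ℝ) ^ 2 ≤ (b + (4 * m - 1)) * (4 * m) * dp y y := by
      have h2 : (4 * m : ℝ) = -dp (Sv T o) y := by
        rw [← Sv_skew T o y, hyo, hoo]
      rw [← hSo]
      calc (4 * m : ℝ) ^ 2 = dp (Sv T o) y ^ 2 := by rw [h2, neg_sq]
        _ ≤ _ := dp_sq _ _
    have h3 : (4 * m : ℝ) ≤ (b + (4 * m - 1)) * dp y y := by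
      have h4 : (4 * m : ℝ) * (4 * m) ≤ (b + (4 * m - 1)) * dp y y * (4 * m) := by
        calc (4 * m : ℝ) * (4 * m) = (4 * m) ^ 2 := (sq _).symm
          _ ≤ _ := h1
          _ = _ := by ring
      exact le_of_mul_le_mul_right h4 h4m
    linarith

theorem R1_eq {T : V → V → Prop} (hT : IsTournament T) {m : ℕ} (hn : Fintype.card V = 4 * m) :
    R1 T = PP T - 4 * m * (4 * m - 1) := by
  unfold R1
  rw [off_eq]
  have h1 := sum_MM T (fun _ => 1)
  simp only [mul_one] at h1
  rw [h1, sum_congr rfl (fun u _ => MM_self hT u), sum_const, card_univ, nsmul_eq_mul, hn,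
    sum_congr rfl (fun x _ => by rw [SS_sum' hT x, neg_sq])]
  unfold PP
  push_cast
  ring

theorem algebra_aux {m c X d : ℝ} (hm : 1 ≤ m) (hc : 2 + d ≤ c) (hc4 : c ≤ 4 * m) (hX : c ≤ X)
    (hd0 : 0 ≤ d) :
    2 * c ^ 2 - 64 * m + 16 ≤ 2 * (X - 2 - d) ^ 2 + 2 * (4 * m - 2 - d) ^ 2 - 32 * m ^ 2
      + (16 * m - 12) * (4 * m * d) := by
  have h1 : (c - 2 - d) ^ 2 ≤ (X - 2 - d) ^ 2 := pow_le_pow_left₀ (by linarith) (by linarith) 2
  have h2 : 0 ≤ d * (64 * m ^ 2 - 80 * m + 16 + 4 * d) := by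
    apply mul_nonneg hd0
    nlinarith
  have h3 : 0 ≤ (4 * m - c) * (2 + d) := mul_nonneg (by linarith) (by linarith)
  nlinarith

/-- the quadratic lower bound -/
theorem quad_lower {T : V → V → Prop} (hT : IsTournament T) {m : ℕ} (hm : 2 ≤ m)
    (hn : Fintype.card V = 4 * m) :
    (L (4 * m) : ℝ) + ((3 - √5) / 4 * m ^ 2 - m + 1 / 4) ≤ tr T 4 := by
  have hm' : (2 : ℝ) ≤ m := by exact_mod_cast hm
  have hex : 64 * ((tr T 4 : ℝ) - (L (4 * m) : ℝ)) =
      QQ T - 32 * m ^ 2 + (16 * m - 12) * ((PP T : ℝ) - 4 * m) := by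
    have := congrArg (Rat.cast : ℚ → ℝ) (exact hT hn)
    push_cast at this
    exact this
  have hR1 : (R1 T : ℝ) = PP T - 4 * m * (4 * m - 1) := by
    have := congrArg (Int.cast : ℤ → ℝ) (R1_eq hT hn)
    push_cast at this
    exact this
  have hb1 : 32 * (m : ℝ) ^ 2 - 4 * m * (PP T - 4 * m) - 2 * (R1 T + R2 T) ≤ QQ T := by
    exact_mod_cast bound_one hT hn
  have hQ0 : (0 : ℝ) ≤ QQ T := by
    rw [← sum_NN]
    exact sum_nonneg fun u _ => sum_nonneg fun w _ => sq_nonneg _
  have hD0 : (0 : ℝ) ≤ (PP T : ℝ) - 4 * m := by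
    have h1 := E1_PP T hn
    have h2 := E1_nonneg T (2 * m - 1)
    have h3 : (4 * m : ℤ) ≤ PP T := by linarith
    have h4 : ((4 * m : ℤ) : ℝ) ≤ PP T := by exact_mod_cast h3
    push_cast at h4
    linarith
  set D : ℝ := (PP T : ℝ) - 4 * m with hD
  have h5 : √5 ^ 2 = 5 := Real.sq_sqrt (by norm_num)
  have h50 : 0 ≤ √5 := Real.sqrt_nonneg 5
  have h5u : √5 ≤ 2.3 := by nlinarith
  have h5l : 2.2 ≤ √5 := by nlinarith
  set θ : ℝ := (3 - √5) / 2 with hθ
  have hθ1 : θ ≤ 0.4 := by rw [hθ]; linarith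
  have hθ0 : 0.3 ≤ θ := by rw [hθ]; linarith
  have hθq : (1 - θ) ^ 2 = θ := by
    rw [hθ]
    nlinarith
  have goal : 32 * θ * m ^ 2 - 64 * m + 16 ≤
      QQ T - 32 * m ^ 2 + (16 * m - 12) * D := by
    rcases le_or_gt (4 * (m : ℝ)) D with hDm | hDm
    · have : 0 ≤ (16 * (m : ℝ) - 12) * (D - 4 * m) := mul_nonneg (by linarith) (by linarith)
      nlinarith
    rcases le_or_gt (16 * θ * (m : ℝ) ^ 2) (-((R1 T : ℝ) + R2 T)) with hA | hA
    · have : 0 ≤ (12 * (m : ℝ) - 12) * D := mul_nonneg (by linarith) hD0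
      nlinarith
    · have h4m : (0 : ℝ) < 4 * m := by linarith
      set d : ℝ := D / (4 * m) with hd
      have hd4 : d * (4 * m) = D := div_mul_cancel₀ _ h4m.ne'
      have hd0 : 0 ≤ d := div_nonneg hD0 h4m.le
      have hd1 : d < 1 := by rw [hd, div_lt_one h4m]; exact hDm
      have hRb : (R1 T : ℝ) = 4 * m * (d - 4 * m + 2) := by
        rw [hR1, show (PP T : ℝ) = d * (4 * m) + 4 * m by rw [hd4, hD]; ring]
        ring
      set X : ℝ := (R2 T : ℝ) / (4 * m) + 2 + d with hX
      have hXe : (R2 T : ℝ) / (4 * m) = X - 2 - d := by rw [hX]; ring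
      have hXm : (R2 T : ℝ) = 4 * m * (X - 2 - d) := by
        rw [← hXe, mul_div_cancel₀ _ h4m.ne']
      have hXc : 4 * (1 - θ) * m ≤ X := by
        by_contra hcon
        rw [not_le] at hcon
        have e1 : 4 * m * (X - 4 * m) < 4 * m * (4 * (1 - θ) * m - 4 * m) :=
          mul_lt_mul_of_pos_left (by linarith) h4m
        have e2 : (4 : ℝ) * m * (4 * (1 - θ) * m - 4 * m) = -(16 * θ * m ^ 2) := by ring
        have e3 : (R1 T : ℝ) + R2 T = 4 * m * (X - 4 * m) := by
          rw [hRb, hXm]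
          ring
        rw [e2, ← e3] at e1
        linarith
      have hc2 : 2 + d ≤ 4 * (1 - θ) * m := by
        have e1 : 0.6 * (m : ℝ) ≤ (1 - θ) * m :=
          mul_le_mul_of_nonneg_right (by linarith) (by linarith)
        linarith
      have hc3 : 4 * (1 - θ) * m ≤ 4 * (m : ℝ) := by
        have e1 : (1 - θ) * m ≤ 1 * (m : ℝ) :=
          mul_le_mul_of_nonneg_right (by linarith) (by linarith)
        linarith
      have hR2nn : (0 : ℝ) ≤ R2 T := by
        rw [hXm]
        exact mul_nonneg h4m.le (by linarith)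
      have hR1np : (R1 T : ℝ) ≤ 0 := by
        rw [hRb]
        exact mul_nonpos_of_nonneg_of_nonpos h4m.le (by linarith)
      have hb2 := bound_two hT (by omega) hn (by exact_mod_cast hR2nn) (by exact_mod_cast hR1np)
      have hRb' : (R1 T : ℝ) / (4 * m) = d - 4 * m + 2 := by
        rw [hRb, mul_div_assoc, mul_comm, div_mul_cancel₀ _ h4m.ne']
      rw [hXe, hRb'] at hb2
      have hal := algebra_aux (m := m) (c := 4 * (1 - θ) * m) (X := X) (d := d) (by linarith) hc2
        hc3 hXc hd0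
      have hcs : (4 * (1 - θ) * (m : ℝ)) ^ 2 = 16 * θ * m ^ 2 := by
        calc (4 * (1 - θ) * (m : ℝ)) ^ 2 = 16 * (1 - θ) ^ 2 * m ^ 2 := by ring
          _ = _ := by rw [hθq]
      rw [hcs, mul_comm (4 * (m : ℝ)) d, hd4] at hal
      have e4 : 2 * (d - 4 * (m : ℝ) + 2) ^ 2 = 2 * (4 * m - 2 - d) ^ 2 := by ring
      rw [e4] at hb2
      linarith
  have hfin : 64 * ((3 - √5) / 4 * (m : ℝ) ^ 2 - m + 1 / 4) = 32 * θ * m ^ 2 - 64 * m + 16 := by
    rw [hθ]
    ring
  linarith

end Pool.Agent.Lib.MPf3446c
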