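import Pool.Agent.Lib.MP_f3446c_co.QuadC
import Pool.Agent.Lib.MP_f3446c_co.Paley

/-!
# Order `4m`: a doubly regular tournament of order `4m-1` and one further vertex
-/

set_option autoImplicit false

namespace Pool.Agent.Lib.MPf3446c

open Finset Classical

variable {V : Type*} [Fintype V]

theorem E2_off' {T : V → V → Prop} (hT : IsTournament T) (c : ℤ) :
    2 * E2 T c = off (fun v w => (com T v w - c) * (com T v w - c - 1)) := by
  rw [off_eq, ← sum_arcs_symm hT (fun v w => (com T v w - c) * (com T v w - c - 1))
    (fun u v => by rw [com_comm])]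
  rfl

theorem ext_value {T : V → V → Prop} (hT : IsTournament T) {j : ℕ}
    (hn : Fintype.card V = 4 * j + 3) (h : ∀ u v, u ≠ v → com T u v = j) (H : Finset V)
    (hH : H.card = 2 * j + 1) :
    (tr (ext T (fun v => v ∈ H)) 4 : ℚ) = L (4 * (j + 1)) + (j + 1) * j / 2 := by
  have hdeg := (eq_of_dr hT hn h).2
  have hcf : ∀ u v, u ≠ v → com (fun a b => T b a) u v = j := by
    intro u v huv
    have h1 := com_sub_com_flip hT huv
    rw [h u v huv, hdeg, hdeg, hn] at h1
    push_cast at h1
    linarith
  set T' := ext T (fun v => v ∈ H) with hT'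
  have hT1 : IsTournament T' := ext_tournament hT _
  have hn' : Fintype.card (Option V) = 4 * (j + 1) := by
    rw [Fintype.card_option, hn]
    ring
  set hh : V → ℤ := fun x => if x ∈ H then 1 else 0 with hhh
  have hhsq : ∀ x, hh x * hh x = hh x := by
    intro x
    rw [hhh]
    beta_reduce
    split_ifs <;> rfl
  have hhsum : ∑ x, hh x = 2 * j + 1 := by
    rw [hhh, sum_ite_mem, univ_inter, sum_const, hH, nsmul_eq_mul, mul_one]
    push_cast
    rfl
  set c : V → ℤ := fun v => ∑ x, A T v x * hh x with hc
  have hcom_none : ∀ v, com T' none (some v) = c v := by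
    intro v
    unfold com
    rw [card_option]
    have h1 : ¬ (T' none none ∧ T' (some v) none) := fun h => h.1
    rw [if_neg h1, zero_add, hc, card_filter]
    push_cast
    apply sum_congr rfl
    intro x _
    have h2 : (T' none (some x) ∧ T' (some v) (some x)) ↔ (x ∈ H ∧ T v x) := Iff.rfl
    unfold A
    by_cases h3 : x ∈ H <;> by_cases h4 : T v x <;> simp [h2, hhh, h3, h4]
  have hcom_some : ∀ u v, u ≠ v → com T' (some u) (some v) = j ∨
      com T' (some u) (some v) = j + 1 := by
    intro u v huv
    have h1 : com T' (some u) (some v) =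
        (if (T' (some u) none ∧ T' (some v) none) then 1 else 0) + com T u v := by
      unfold com
      rw [card_option]
      rfl
    rw [h1, h u v huv]
    split_ifs
    · right; ring
    · left; ring
  have hE1 : E1 T' (2 * j + 1) = 0 := by
    apply E1_eq_zero_of
    intro v
    cases v with
    | none =>
      left
      unfold deg
      rw [card_option]
      have h1 : ¬ T' none none := fun h => h
      rw [if_neg h1, zero_add]
      have h2 : (univ.filter (fun v => T' none (some v))) = H := by
        ext x
        rw [mem_filter]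
        exact ⟨fun h => h.2, fun h => ⟨mem_univ _, h⟩⟩
      rw [h2, hH]
      push_cast
      rfl
    | some v =>
      have h1 : deg T' (some v) = (if T' (some v) none then 1 else 0) + deg T v := by
        unfold deg
        rw [card_option]
        rfl
      rw [h1, hdeg]
      split_ifs
      · right; ring
      · left; ring
  have hE2 : E2 T' j = ∑ v, (c v - j) * (c v - j - 1) := by
    have h1 := E2_off' hT1 (j : ℤ)
    rw [off_eq, Fintype.sum_option, Fintype.sum_option, Fintype.sum_option] at h1
    have h2 : ∀ v : V, ∑ w : Option V, (com T' (some v) w - (j : ℤ)) *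
        (com T' (some v) w - j - 1) = (c v - j) * (c v - j - 1)
          + (com T' (some v) (some v) - j) * (com T' (some v) (some v) - j - 1) := by
      intro v
      rw [Fintype.sum_option, com_comm T' (some v) none, hcom_none]
      congr 1
      rw [← sum_erase_add univ _ (mem_univ v)]
      rw [sum_eq_zero, zero_add]
      intro w hw
      rcases hcom_some v w (Ne.symm (ne_of_mem_erase hw)) with h3 | h3 <;> rw [h3] <;> ring
    rw [sum_congr rfl (fun v _ => h2 v), sum_add_distrib,
      sum_congr rfl (fun v _ => by rw [hcom_none v])] at h1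
    linarith
  have hs1 : ∑ v, c v = (2 * j + 1) * (2 * j + 1) := by
    rw [hc]
    rw [sum_comm]
    have h1 : ∀ x, ∑ v, A T v x * hh x = (2 * j + 1) * hh x := by
      intro x
      rw [← sum_mul, indeg_eq hT, hdeg, hn]
      push_cast
      ring
    rw [sum_congr rfl (fun x _ => h1 x), ← mul_sum, hhsum]
  have hs2 : ∑ v, c v ^ 2 = (2 * j + 1) * (2 * j + 1) + (2 * j + 1) * (2 * j) * j := by
    have h1 : ∀ v, c v ^ 2 = ∑ x, ∑ y, (A T v x * A T v y) * (hh x * hh y) := by
      intro v
      rw [hc, sq]
      beta_reduce
      rw [sum_mul_sum]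
      apply sum_congr rfl
      intro x _
      apply sum_congr rfl
      intro y _
      ring
    rw [sum_congr rfl (fun v _ => h1 v), sum_comm]
    have h2 : ∀ x, ∑ v, ∑ y, (A T v x * A T v y) * (hh x * hh y) =
        j * (hh x * (2 * j + 1)) + (j + 1) * hh x := by
      intro x
      rw [sum_comm]
      have h3 : ∀ y, ∑ v, (A T v x * A T v y) * (hh x * hh y) =
          j * (hh x * hh y) + (if y = x then (j + 1) * hh x else 0) := by
        intro y
        rw [← sum_mul, ← com_flip_eq]
        by_cases hy : y = x
        · subst hy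
          rw [if_pos rfl, hhsq, com_flip_eq, sum_congr rfl (fun v _ => A_sq T v y), indeg_eq hT,
            hdeg, hn]
          push_cast
          ring
        · rw [if_neg hy, hcf x y (Ne.symm hy), add_zero]
      rw [sum_congr rfl (fun y _ => h3 y), sum_add_distrib, ← mul_sum, ← mul_sum, hhsum,
        sum_ite_eq' univ x (fun _ => ((j : ℤ) + 1) * hh x), if_pos (mem_univ _)]
    rw [sum_congr rfl (fun x _ => h2 x), sum_add_distrib, ← mul_sum, ← mul_sum, ← sum_mul, hhsum]
    ring
  have hE2' : E2 T' j = (j + 1) * j := by
    rw [hE2]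
    have h1 : ∀ v, (c v - j) * (c v - j - 1) = c v ^ 2 - (2 * j + 1) * c v + j * (j + 1) := by
      intro v; ring
    rw [sum_congr rfl (fun v _ => h1 v), sum_add_distrib, sum_sub_distrib, ← mul_sum, hs1, hs2,
      sum_const, card_univ, nsmul_eq_mul, hn]
    push_cast
    ring
  have hmain := main0 hT1 hn'
  have e1 : ((j + 1 : ℕ) : ℤ) - 1 = j := by push_cast; ring
  have e2 : 2 * ((j + 1 : ℕ) : ℤ) - 1 = 2 * j + 1 := by push_cast; ring
  rw [e1, e2, hE1, hE2'] at hmain
  push_cast at hmain
  linarith

end Pool.Agent.Lib.MPf3446c
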