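import Pool.Agent.Lib.MP_f3446c_co.Equal

/-!
# Order `4m`, `m ≥ 2`: the convexity bound is never attained
-/

set_option autoImplicit false

namespace Pool.Agent.Lib.MPf3446c

open Finset Classical

variable {V : Type*} [Fintype V]

/-- symmetric 0-1 matrix with zero diagonal: `r(u) + r(v) ≤ m + 1` when `e(u,v) = 1` -/
theorem star_bound (e : V → V → ℤ) (h01 : ∀ u v, e u v = 0 ∨ e u v = 1)
    (hs : ∀ u v, e u v = e v u) (hd : ∀ u, e u u = 0) {m : ℤ}
    (hm : ∑ u, ∑ v, e u v = 2 * m) {u v : V} (huv : e u v = 1) :
    ∑ x, e u x + ∑ x, e v x ≤ m + 1 := by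
  have hne : u ≠ v := by
    rintro rfl
    rw [hd] at huv
    exact zero_ne_one huv
  have hnn : ∀ a b, 0 ≤ e a b := by
    intro a b
    rcases h01 a b with h | h <;> rw [h] <;> norm_num
  -- row sums
  have h1 : ∀ a, (if a = u then ∑ x, e u x - 1 else 0) + (if a = v then ∑ x, e v x - 1 else 0)
      + (e a u + e a v) ≤ ∑ x, e a x := by
    intro a
    by_cases hau : a = u
    · subst hau
      rw [if_pos rfl, if_neg hne, hd, huv]
      linarith
    · by_cases hav : a = v
      · subst hav
        rw [if_neg hau, if_pos rfl, hd, hs a u, huv]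
        linarith
      · rw [if_neg hau, if_neg hav]
        have : e a u + e a v = ∑ x ∈ ({u, v} : Finset V), e a x := by
          rw [sum_pair hne]
        rw [this, zero_add, zero_add]
        exact sum_le_sum_of_subset_of_nonneg (subset_univ _) (fun x _ _ => hnn a x)
  have h2 := sum_le_sum (fun a (_ : a ∈ (univ : Finset V)) => h1 a)
  rw [hm, sum_add_distrib, sum_add_distrib, sum_add_distrib,
    sum_ite_eq' univ u (fun _ => ∑ x, e u x - 1), if_pos (mem_univ _),
    sum_ite_eq' univ v (fun _ => ∑ x, e v x - 1), if_pos (mem_univ _),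
    sum_congr rfl (fun a _ => hs a u), sum_congr rfl (fun a _ => hs a v)] at h2
  linarith

theorem strict_aux {T : V → V → Prop} (hT : IsTournament T) {m : ℕ} (hm : 2 ≤ m)
    (hn : Fintype.card V = 4 * m) (h : (tr T 4 : ℚ) = L (4 * m)) : False := by
  have hm' : (2 : ℚ) ≤ m := by exact_mod_cast hm
  have hTf := hT.flip
  have hf : (tr (fun a b => T b a) 4 : ℚ) = L (4 * m) := by rw [tr_flip, h]
  have m1 := main0 hT hn
  have m2 := main0 hTf hn
  rw [h] at m1
  rw [hf] at m2
  have hE1 : E1 T (2 * m - 1) = 0 :=
    E1_zero_of_sum (k := (m : ℚ) - 1) (c := m - 1) (by linarith) (by linarith)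
  have hE2 : E2 T (m - 1) = 0 :=
    E2_zero_of_sum (k := (m : ℚ) - 1) (e := 2 * m - 1) (by linarith) (by linarith)
  have hE2f : E2 (fun a b => T b a) (m - 1) = 0 :=
    E2_zero_of_sum (k := (m : ℚ) - 1) (e := 2 * m - 1) (by linarith) (by linarith)
  -- high vertices
  set hi : V → ℤ := fun v => if deg T v = 2 * m then 1 else 0 with hhi
  have hi01 : ∀ v, hi v = 0 ∨ hi v = 1 := by
    intro v
    simp only [hhi]
    split_ifs
    · right; rfl
    · left; rfl
  have hisq : ∀ v, hi v * hi v = hi v := by
    intro v
    rcases hi01 v with h | h <;> rw [h] <;> rfl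
  have hdeg : ∀ v, deg T v = 2 * m - 1 + hi v := by
    intro v
    simp only [hhi]
    split_ifs with h
    · rw [h]; ring
    · rcases E1_eq_zero hE1 v with h' | h'
      · rw [h']; ring
      · exact absurd (by rw [h']; ring) h
  have hsum : ∑ v, hi v = 2 * m := by
    have h9 := sum_deg' hT
    rw [sum_congr rfl (fun v _ => hdeg v), sum_add_distrib, sum_const, card_univ, nsmul_eq_mul,
      hn] at h9
    push_cast at h9
    linarith
  -- the matrix `e`
  set e : V → V → ℤ := fun u v => if u = v then 0 else com T u v - (m - 1) - hi u * hi v with he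
  have hed : ∀ u, e u u = 0 := fun u => if_pos rfl
  have hene : ∀ {u v : V}, u ≠ v → e u v = com T u v - (m - 1) - hi u * hi v :=
    fun huv => if_neg huv
  have hes : ∀ u v, e u v = e v u := by
    intro u v
    by_cases huv : u = v
    · subst huv; rfl
    · rw [hene huv, hene (Ne.symm huv), com_comm, mul_comm (hi u)]
  have he01 : ∀ u v, e u v = 0 ∨ e u v = 1 := by
    intro u v
    by_cases huv : u = v
    · subst huv; left; exact hed u
    · rw [hene huv]
      have h1 := E2_eq_zero' hT hE2 huv
      have h2 := E2_eq_zero' hTf hE2f huv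
      have h3 := com_sub_com_flip hT huv
      rw [hdeg u, hdeg v, hn] at h3
      push_cast at h3
      rcases hi01 u with hu | hu <;> rcases hi01 v with hv | hv <;> rw [hu, hv] at h3 ⊢ <;> omega
  -- the total
  have htot : ∑ u, ∑ v, e u v = 2 * m := by
    have h1 := three_com hT
    have h2 := three_deg hT (2 * m - 1)
    rw [hE1, hn] at h2
    have h3 := sum_arcs_symm hT e hes
    rw [sum_congr rfl (fun v _ => hed v), sum_const_zero, sub_zero] at h3
    rw [← h3]
    have h4 := sum_arcs_symm hT (fun u v => hi u * hi v) (fun u v => mul_comm _ _)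
    have h5 : ∑ v, ∑ w, hi v * hi w = (2 * m) * (2 * m) := by
      rw [← hsum, sum_mul_sum]
    rw [h5, sum_congr rfl (fun v _ => hisq v), hsum] at h4
    have h6 := arcs_card hT
    rw [hn] at h6
    have h7 : ∀ v, ∑ w ∈ univ.filter (T v), e v w =
        ∑ w ∈ univ.filter (T v), com T v w - (m - 1) * ∑ _w ∈ univ.filter (T v), (1 : ℤ)
          - ∑ w ∈ univ.filter (T v), hi v * hi w := by
      intro v
      rw [mul_sum, ← sum_sub_distrib, ← sum_sub_distrib]
      apply sum_congr rfl
      intro w hw
      have hne : v ≠ w := by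
        rintro rfl
        exact hT.1 _ (mem_filter.mp hw).2
      rw [hene hne, mul_one]
    rw [sum_congr rfl (fun v _ => h7 v), sum_sub_distrib, sum_sub_distrib, ← mul_sum, ← h1]
    push_cast at h2 h6
    linear_combination h2 - (m - 1 : ℤ) * h6 - h4
  -- the number of high out-neighbours
  have hh : ∀ v, ∑ x, A T v x * hi x = m - ∑ w, e v w := by
    intro v
    have h1 := sum_com hT v
    have h2 : ∑ w, com T v w = ∑ w, (((m : ℤ) - 1) + hi v * hi w + e v w)
        + (deg T v - (m - 1) - hi v * hi v) := by
      rw [← add_sum_erase univ _ (mem_univ v), ← add_sum_erase univ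
        (fun w => ((m : ℤ) - 1) + hi v * hi w + e v w) (mem_univ v), com_self, hed]
      have h3 : ∀ w ∈ univ.erase v, com T v w = ((m : ℤ) - 1) + hi v * hi w + e v w := by
        intro w hw
        rw [hene (Ne.symm (mem_erase.mp hw).1)]
        ring
      rw [sum_congr rfl h3]
      ring
    rw [h2, sum_add_distrib, sum_add_distrib, sum_const, card_univ, nsmul_eq_mul, ← mul_sum,
      hsum, hn] at h1
    have h3 : ∀ x, A T v x * (((4 * m : ℕ) : ℤ) - 1 - deg T x) =
        2 * m * A T v x - A T v x * hi x := by
      intro x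
      rw [hdeg x]
      push_cast
      ring
    rw [sum_congr rfl (fun x _ => h3 x), sum_sub_distrib, ← mul_sum, ← deg_eq, hdeg v] at h1
    push_cast at h1
    have h4 := hisq v
    linear_combination h1 + h4
  -- second moment of the number of high out-neighbours
  have hsq : ∑ v, (∑ x, A T v x * hi x) * (∑ x, A T v x * hi x) = 2 * m * (2 * m - 1) * m := by
    have h1 : ∀ v, (∑ x, A T v x * hi x) * (∑ x, A T v x * hi x) =
        ∑ x, ∑ y, hi x * hi y * (A T v x * A T v y) := by
      intro v
      rw [sum_mul_sum]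
      apply sum_congr rfl
      intro x _
      apply sum_congr rfl
      intro y _
      ring
    rw [sum_congr rfl (fun v _ => h1 v), sum_comm]
    have h2 : ∀ x, ∑ v, ∑ y, hi x * hi y * (A T v x * A T v y) =
        ∑ y, (hi x * hi y) * (m - 1) + hi x * m := by
      intro x
      rw [sum_comm]
      have h3 : ∀ y, ∑ v, hi x * hi y * (A T v x * A T v y) =
          (hi x * hi y) * (m - 1) + (if y = x then hi x * m else 0) := by
        intro y
        rw [← mul_sum, ← com_flip_eq]
        by_cases hxy : y = x
        · subst hxy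
          rw [if_pos rfl, com_self, deg_eq]
          show hi y * hi y * ∑ x, A T x y = _
          rw [indeg_eq hT, hdeg y, hn]
          push_cast
          have h4 := hisq y
          linear_combination (2 * (m : ℤ) - hi y - 1 - (m - 1)) * h4
        · rw [if_neg hxy, add_zero]
          rcases hi01 x with hx | hx
          · rw [hx]; ring
          · rcases hi01 y with hy | hy
            · rw [hy]; ring
            · have h4 := com_sub_com_flip hT (Ne.symm hxy)
              have h5 := E2_eq_zero' hT hE2 (Ne.symm hxy)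
              have h6 := E2_eq_zero' hTf hE2f (Ne.symm hxy)
              rw [hdeg x, hdeg y, hn, hx, hy] at h4
              push_cast at h4
              have h7 : com (fun a b => T b a) x y = m - 1 := by omega
              rw [h7]
      rw [sum_congr rfl (fun y _ => h3 y), sum_add_distrib, sum_ite_eq' univ x (fun _ => hi x * m),
        if_pos (mem_univ _)]
    rw [sum_congr rfl (fun x _ => h2 x), sum_add_distrib, ← sum_mul, hsum]
    have h3 : ∑ x, ∑ y, hi x * hi y * ((m : ℤ) - 1) = (2 * m) * (2 * m) * (m - 1) := by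
      rw [sum_congr rfl (fun x _ => (sum_mul _ _ _).symm), ← sum_mul, ← sum_mul_sum, hsum]
    rw [h3]
    ring
  -- hence the second moment of the row sums of `e`
  have hr : ∑ v, (∑ w, e v w) * (∑ w, e v w) = 2 * m * m := by
    rw [sum_congr rfl (fun v _ => by rw [hh v])] at hsq
    have h1 : ∀ v, ((m : ℤ) - ∑ w, e v w) * (m - ∑ w, e v w) =
        m * m - 2 * m * ∑ w, e v w + (∑ w, e v w) * (∑ w, e v w) := by
      intro v; ring
    rw [sum_congr rfl (fun v _ => h1 v), sum_add_distrib, sum_sub_distrib, sum_const, card_univ,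
      nsmul_eq_mul, ← mul_sum, htot, hn] at hsq
    push_cast at hsq
    linear_combination hsq
  -- but it is small
  have hle : 2 * ∑ v, (∑ w, e v w) * (∑ w, e v w) ≤ (m + 1) * (2 * m) := by
    have h1 : 2 * ∑ v, (∑ w, e v w) * (∑ w, e v w) =
        ∑ v, ∑ w, e v w * (∑ x, e v x + ∑ x, e w x) := by
      have h2 : ∑ v, (∑ w, e v w) * (∑ w, e v w) = ∑ v, ∑ w, e v w * ∑ x, e v x := by
        apply sum_congr rfl
        intro v _
        rw [sum_mul]
      have h3 : ∑ v, ∑ w, e v w * ∑ x, e v x = ∑ v, ∑ w, e v w * ∑ x, e w x := by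
        rw [sum_comm]
        apply sum_congr rfl
        intro v _
        apply sum_congr rfl
        intro w _
        rw [hes]
      rw [two_mul, h2]
      nth_rewrite 2 [h3]
      rw [← sum_add_distrib]
      apply sum_congr rfl
      intro v _
      rw [← sum_add_distrib]
      apply sum_congr rfl
      intro w _
      ring
    rw [h1, ← htot, mul_sum]
    apply sum_le_sum
    intro v _
    rw [mul_sum]
    apply sum_le_sum
    intro w _
    rcases he01 v w with h | h
    · rw [h]; simp
    · rw [h, one_mul, mul_one]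
      exact star_bound e he01 hes hed htot h
  rw [hr] at hle
  have hm2 : (2 : ℤ) ≤ m := by exact_mod_cast hm
  nlinarith

theorem strict {m : ℕ} (hm : 2 ≤ m) : L (4 * m) < F (4 * m) 4 := by
  refine lt_of_le_of_ne (L_le_F (by omega)) ?_
  intro h
  obtain ⟨T, hT, hF⟩ := F_attained (4 * m) 4
  apply strict_aux hT hm (Fintype.card_fin _)
  rw [hF, h]

end Pool.Agent.Lib.MPf3446c
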